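import Pool.Agent.Lib.MP_6a3dac_ag.Mg.G071

/-!
# NU: the potential drops under blow-ups; the initial bound (all centers)
-/

set_option autoImplicit false

namespace Pool.Agent.Lib.MP_6a3dac_ag.NU

open IsLocalRing IsDiscreteValuationRing

theorem Pot.mono {A V : Type} [CommRing A] [CommRing V] [IsDomain V] [IsDiscreteValuationRing V]
    {α : A →+* V} {n m : ℕ} (h : Pot α n) (hnm : n ≤ m) : Pot α m := by
  obtain ⟨c, B, i, ψ, θ, g, h1, h2, h3, h4, h5⟩ := h
  exact ⟨c, B, i, ψ, θ, g, h1, h2, h3, h4, h5.trans (by exact_mod_cast hnm)⟩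

theorem Pot.congr {A A₁ V : Type} [CommRing A] [CommRing A₁] [CommRing V] [IsDomain V]
    [IsDiscreteValuationRing V] {α : A →+* V} {α₁ : A₁ →+* V} (e : A ≃+* A₁)
    (he : ∀ a, α₁ (e a) = α a) {n : ℕ} (h : Pot α n) : Pot α₁ n := by
  obtain ⟨c, B, i, ψ, θ, g, h1, h2, h3, h4, h5⟩ := h
  refine ⟨c, B, i, (e : A →+* A₁).comp ψ, θ, g, h1, e.surjective.comp h2, ?_, fun k => ?_, ?_⟩
  · rwa [RingHom.ker_comp_of_injective ψ e.injective]
  · change e (ψ (g k)) = 0
    rw [h4, map_zero]
  · change addVal V (α₁ (e _)) ≤ n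
    rwa [he]

-- BEGIN AN1a
theorem an1a_sub {B : Type} [CommRing B] [IsLocalRing B] {i c : ℕ} (e : Fin i → Fin c)
    (he : Function.Injective e) (h : Fin c → B)
    (hind : ∀ b : Fin c → B, ∑ j, b j * h j ∈ maximalIdeal B ^ 2 → ∀ j, b j ∈ maximalIdeal B)
    (b : Fin i → B) (hb : ∑ j, b j * h (e j) ∈ maximalIdeal B ^ 2) (j : Fin i) :
    b j ∈ maximalIdeal B := by
  have h1 : ∑ j, b j * h (e j) = ∑ k, Function.extend e b 0 k * h k :=
    Fintype.sum_of_injective e he _ _ (fun k hk => by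
      rw [Function.extend_apply' _ _ _ (by simpa using hk), Pi.zero_apply, zero_mul])
      (fun j => by rw [he.extend_apply])
  have h2 := hind _ (h1 ▸ hb) (e j)
  rwa [he.extend_apply] at h2

/-- A quotient of a regular local ring by a prime ideal of height at most `c` containing `c`
independent elements of the cotangent space is regular. -/
theorem regular_of_independent {B A : Type} [CommRing B] (hB : IsRegularLocalRing B) [CommRing A]
    [IsDomain A] (ψ : B →+* A) (hψ : Function.Surjective ψ) {c : ℕ}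
    (hht : (RingHom.ker ψ).height ≤ c) (h : Fin c → B) (h0 : ∀ j, ψ (h j) = 0)
    (hind : ∀ b : Fin c → B, ∑ j, b j * h j ∈ maximalIdeal B ^ 2 → ∀ j, b j ∈ maximalIdeal B) :
    IsRegularLocalRing A := by
  have hm : ∀ j, h j ∈ maximalIdeal B := fun j hu => by
    have := hu.map ψ
    rw [h0 j] at this
    exact not_isUnit_zero this
  have hP : ∀ i (hi : i ≤ c), (Ideal.span (Set.range fun j : Fin i => h (Fin.castLE hi j))).IsPrime :=
    fun i hi => by
    have hR := isRegularLocalRing_quotient_range i B hB (fun j => h (Fin.castLE hi j))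
      (fun j => hm _) (fun b hb j => an1a_sub _ (Fin.castLE_injective hi) h hind b hb j)
    exact (Ideal.Quotient.isDomain_iff_prime _).1 (isDomain_aux _ _ le_rfl)
  have hQ : ∀ i (hi : i ≤ c),
      (i : ℕ∞) ≤ (Ideal.span (Set.range fun j : Fin i => h (Fin.castLE hi j))).height := by
    intro i
    induction i with
    | zero => exact fun _ => zero_le
    | succ i ih =>
      intro hi
      have hi' : i ≤ c := by omega
      have hp := hP i hi'
      have hp' := hP (i + 1) hi
      have hlt : Ideal.span (Set.range fun j : Fin i => h (Fin.castLE hi' j)) <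
          Ideal.span (Set.range fun j : Fin (i + 1) => h (Fin.castLE hi j)) := by
        refine lt_of_le_of_ne (Ideal.span_mono ?_) fun he => ?_
        · rintro _ ⟨j, rfl⟩
          exact ⟨j.castSucc, rfl⟩
        · have h1 : h (Fin.castLE hi (Fin.last i)) ∈
              Ideal.span (Set.range fun j : Fin i => h (Fin.castLE hi' j)) := by
            rw [he]
            exact Ideal.subset_span ⟨Fin.last i, rfl⟩
          obtain ⟨a, ha⟩ := Ideal.mem_span_range_iff_exists_fun.1 h1
          have h2 := an1a_sub _ (Fin.castLE_injective hi) h hind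
            (Fin.snoc (α := fun _ => B) (fun j => -a j) 1) (by
              rw [Fin.sum_univ_castSucc, Fin.snoc_last, one_mul, ← ha,
                ← Finset.sum_add_distrib, Finset.sum_eq_zero]
              · exact Ideal.zero_mem _
              · intro j _
                rw [Fin.snoc_castSucc, neg_mul]
                exact neg_add_cancel _) (Fin.last i)
          rw [Fin.snoc_last] at h2
          exact (Ideal.ne_top_iff_one _).1 (maximalIdeal.isMaximal B).ne_top h2
      rw [Nat.cast_add, Nat.cast_one]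
      exact (add_le_add_left (ih hi') 1).trans (Ideal.height_add_one_le_of_lt_of_isPrime hlt)
  have hp := hP c le_rfl
  have hle : Ideal.span (Set.range fun j : Fin c => h (Fin.castLE le_rfl j)) ≤ RingHom.ker ψ :=
    Ideal.span_le.2 (by rintro _ ⟨j, rfl⟩; exact h0 _)
  have hk : (RingHom.ker ψ).IsPrime := RingHom.ker_isPrime ψ
  rcases hle.lt_or_eq with hlt | heq
  · have h1 := ((add_le_add_left (hQ c le_rfl) 1).trans
      (Ideal.height_add_one_le_of_lt_of_isPrime hlt)).trans hht
    exact absurd h1 (by exact_mod_cast Nat.not_succ_le_self c)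
  · have hR := isRegularLocalRing_quotient_range c B hB (fun j => h (Fin.castLE le_rfl j))
      (fun j => hm _) (fun b hb j => an1a_sub _ (Fin.castLE_injective le_rfl) h hind b hb j)
    exact IsRegularLocalRing.of_ringEquiv ((Ideal.quotEquivOfEq heq).trans
      (RingHom.quotientKerEquivOfSurjective hψ))
-- END AN1a

-- BEGIN AN1b
/-- **The relations modulo the square of the center.** -/
theorem exists_relations {B A : Type} [CommRing B] (hB : IsRegularLocalRing B) [CommRing A]
    [IsDomain A] [IsLocalRing A] [IsNoetherianRing A] (ψ : B →+* A) (hψ : Function.Surjective ψ)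
    {𝔱 : Ideal A} (hreg : IsRegularLocalRing (A ⧸ 𝔱)) (hfree : ConFree 𝔱)
    (hA : ¬ IsRegularLocalRing A) {c : ℕ} (hht : (RingHom.ker ψ).height ≤ c) :
    ∃ (ρ : ℕ) (h : Fin ρ → B), ρ < c ∧ (∀ j, ψ (h j) = 0) ∧
      ∀ g, ψ g = 0 → ∃ b : Fin ρ → B, g - ∑ j, b j * h j ∈ 𝔱.comap ψ ^ 2 := by
  have hk : RingHom.ker ((Ideal.Quotient.mk 𝔱).comp ψ) = 𝔱.comap ψ := by
    rw [← RingHom.comap_ker, Ideal.mk_ker]
  have hJ : IsRegularLocalRing (B ⧸ 𝔱.comap ψ) :=
    IsRegularLocalRing.of_ringEquiv ((RingHom.quotientKerEquivOfSurjective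
      (f := (Ideal.Quotient.mk 𝔱).comp ψ)
      (Ideal.Quotient.mk_surjective.comp hψ)).symm.trans (Ideal.quotEquivOfEq hk))
  obtain ⟨r, s, hs, -, hs2⟩ := exists_gens_of_regular_quotient hB _ hJ
  obtain ⟨ρ, h, h0, hrel, hind⟩ := exists_min_gens (RingHom.ker ψ) (𝔱.comap ψ ^ 2)
  have h1 : ∀ b : Fin ρ → B, ∑ j, b j * h j ∈ maximalIdeal B ^ 2 →
      ∀ j, b j ∈ maximalIdeal B := by
    refine fun b hb => hind b (ker_inf_le ψ hψ hfree ⟨Ideal.sum_mem _ fun j _ =>
      Ideal.mul_mem_left _ _ (h0 j), ?_⟩)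
    have h2 : ∑ j, b j * h j ∈ 𝔱.comap ψ := by
      rw [Ideal.mem_comap, (RingHom.mem_ker).1 (Ideal.sum_mem (RingHom.ker ψ) fun j _ =>
        Ideal.mul_mem_left _ _ (h0 j))]
      exact Ideal.zero_mem _
    rw [hs] at h2
    obtain ⟨a, ha⟩ := (Ideal.mem_span_range_iff_exists_fun).1 h2
    rw [SetLike.mem_coe, ← ha]
    rw [← ha] at hb
    refine Ideal.sum_mem _ fun i _ => Ideal.mul_mem_mul (hs2 a hb i) ?_
    rw [hs]
    exact Ideal.subset_span ⟨i, rfl⟩
  refine ⟨ρ, h, ?_, h0, hrel⟩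
  by_contra hρ
  exact hA (regular_of_independent hB ψ hψ hht (fun j => h (Fin.castLE (not_lt.1 hρ) j))
    (fun j => h0 _) fun b hb => an1a_sub _ (Fin.castLE_injective _) h h1 b hb)
-- END AN1b

-- BEGIN AN1c
/-- An arc of potential zero has a regular center. -/
theorem regular_of_pot_zero {A V : Type} [CommRing A] [IsDomain A] [IsLocalRing A] [CommRing V]
    [IsDomain V] [IsDiscreteValuationRing V] (α : A →+* V) (hα : IsLocalHom α) (h : Pot α 0) :
    IsRegularLocalRing A := by
  classical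
  obtain ⟨c, B, _, ψ, θ, g, hB, hψ, hht, hg, hv⟩ := h
  have hloc : IsLocalHom ψ := .of_surjective ψ hψ
  have hmm : ∀ x ∈ maximalIdeal B, ψ x ∈ maximalIdeal A := fun x hx => by
    rw [mem_maximalIdeal, mem_nonunits_iff] at hx ⊢
    exact fun h => hx (isUnit_of_map_unit ψ x h)
  by_cases hind : ∀ b : Fin c → B, ∑ j, b j * g j ∈ maximalIdeal B ^ 2 → ∀ j, b j ∈ maximalIdeal B
  · exact regular_of_independent hB ψ hψ hht g hg hind
  · push Not at hind
    obtain ⟨b, hb, k₀, hk₀⟩ := hind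
    exfalso
    have hder : ∀ (D : Derivation ℤ B B) (x : B), x ∈ maximalIdeal B ^ 2 →
        D x ∈ maximalIdeal B := fun D x hx => by
      rw [pow_two] at hx
      refine Submodule.mul_induction_on hx (fun m hm n hn => ?_) fun x y hx hy => ?_
      · rw [Derivation.leibniz]
        exact Ideal.add_mem _ (Ideal.mul_mem_right _ _ hm) (Ideal.mul_mem_right _ _ hn)
      · rw [map_add]; exact Ideal.add_mem _ hx hy
    set M : Matrix (Fin c) (Fin c) B := Matrix.of fun l k : Fin c => θ l (g k) with hM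
    have hrow : ∀ l, ((M.map ψ).mulVec fun k => ψ (b k)) l ∈ maximalIdeal A := fun l => by
      have h1 := hmm _ (hder (θ l) _ hb)
      have h2 : ψ (θ l (∑ j, b j * g j)) = ((M.map ψ).mulVec fun k => ψ (b k)) l := by
        rw [map_sum, map_sum]
        refine Finset.sum_congr rfl fun k _ => ?_
        rw [Derivation.leibniz]
        simp [hg, hM, mul_comm]
      rwa [h2] at h1
    have hadj : ((M.map ψ).adjugate.mulVec ((M.map ψ).mulVec fun k => ψ (b k))) k₀ =
        (M.map ψ).det * ψ (b k₀) := by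
      rw [Matrix.mulVec_mulVec, Matrix.adjugate_mul, Matrix.smul_mulVec, Matrix.one_mulVec]
      rfl
    have h4 : (M.map ψ).det * ψ (b k₀) ∈ maximalIdeal A := by
      rw [← hadj, Matrix.mulVec, dotProduct]
      exact Ideal.sum_mem _ fun l _ => Ideal.mul_mem_left _ _ (hrow l)
    have h5 : IsUnit (ψ (b k₀)) := by
      rw [mem_maximalIdeal, mem_nonunits_iff, not_not] at hk₀
      exact hk₀.map ψ
    have h6 : ψ M.det ∈ maximalIdeal A := by
      rw [RingHom.map_det]
      exact (Ideal.mul_unit_mem_iff_mem _ h5).1 h4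
    have h7 : addVal V (α (ψ M.det)) ≤ addVal V 1 := by
      rw [addVal_one]; exact_mod_cast hv
    rw [addVal_le_iff_dvd] at h7
    exact h6 (isUnit_of_map_unit α _ (isUnit_of_dvd_one h7))
-- END AN1c

-- BEGIN AN1d
theorem an1d_conv {C : Type} [CommRing C] [IsLocalRing C] [IsNoetherianRing C] {r : ℕ}
    (h : Fin r → C) (s : Set C) (hs : s.Finite)
    (hg : Ideal.span (Set.range h ∪ s) = maximalIdeal C)
    (hc : ((s.ncard + r : ℕ) : WithBot ℕ∞) ≤ ringKrullDim C) :
    IsRegularLocalRing C ∧ ∀ b : Fin r → C, ∑ i, b i * h i ∈ maximalIdeal C ^ 2 →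
      ∀ i, b i ∈ maximalIdeal C := by
  have key : ∀ {r' : ℕ} (h' : Fin r' → C), Ideal.span (Set.range h' ∪ s) = maximalIdeal C →
      (maximalIdeal C).spanFinrank ≤ s.ncard + r' := fun {r'} h' hg' => by
    rw [← hg']
    refine (Submodule.spanFinrank_span_le_ncard_of_finite
      ((Set.finite_range h').union hs)).trans ((Set.ncard_union_le _ _).trans ?_)
    have := Set.ncard_image_le (f := h') Set.finite_univ
    rw [Set.image_univ, Set.ncard_univ, Nat.card_eq_fintype_card, Fintype.card_fin] at this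
    omega
  refine ⟨IsRegularLocalRing.of_spanFinrank_maximalIdeal_le _
    (le_trans (by exact_mod_cast key h hg) hc), fun b hb i₀ => ?_⟩
  by_contra hi
  rw [mem_maximalIdeal, mem_nonunits_iff, not_not] at hi
  obtain _ | r := r
  · exact i₀.elim0
  have hle : Ideal.span (Set.range (h ∘ i₀.succAbove) ∪ s) ≤ maximalIdeal C := by
    rw [← hg]
    exact Ideal.span_mono (Set.union_subset_union_left s (Set.range_comp_subset_range _ _))
  have h1 := key (h ∘ i₀.succAbove) (le_antisymm hle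
    (Submodule.le_of_le_smul_of_le_jacobson_bot (I := maximalIdeal C)
      (IsNoetherian.noetherian _) (maximalIdeal_le_jacobson _) ?_))
  · have h2 := hc.trans (ringKrullDim_le_spanFinrank_maximalIdeal C)
    have h3 : s.ncard + (r + 1) ≤ (maximalIdeal C).spanFinrank := by exact_mod_cast h2
    omega
  · conv_lhs => rw [← hg]
    rw [Ideal.span_le]
    rintro _ (⟨i, rfl⟩ | hx)
    · refine am2c_mem h i₀ b hi _ (Submodule.mem_sup_right ?_) (fun j =>
        Submodule.mem_sup_left (Ideal.subset_span (Or.inl ⟨j, rfl⟩))) i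
      rwa [smul_eq_mul, ← pow_two]
    · exact Submodule.mem_sup_left (Ideal.subset_span (Or.inr hx))

/-- Polynomial rings over a regular local ring. -/
theorem regular_mvPolynomial {B : Type} [CommRing B] (hB : IsRegularLocalRing B) {q : ℕ}
    (𝔔 : Ideal (MvPolynomial (Fin q) B)) [𝔔.IsPrime]
    (h𝔔 : 𝔔.comap (MvPolynomial.C (σ := Fin q) (R := B)) = maximalIdeal B) {r : ℕ} (y : Fin r → B)
    (hym : ∀ i, y i ∈ maximalIdeal B)
    (hy : ∀ b : Fin r → B, ∑ i, b i * y i ∈ maximalIdeal B ^ 2 → ∀ i, b i ∈ maximalIdeal B) :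
    IsRegularLocalRing (Localization.AtPrime 𝔔) ∧
      ∀ b : Fin r → Localization.AtPrime 𝔔,
        ∑ i, b i * algebraMap (MvPolynomial (Fin q) B) (Localization.AtPrime 𝔔)
          (MvPolynomial.C (y i)) ∈ maximalIdeal (Localization.AtPrime 𝔔) ^ 2 →
        ∀ i, b i ∈ maximalIdeal (Localization.AtPrime 𝔔) := by
  classical
  obtain ⟨s, hs, hc, hg⟩ := am2a_gens y hym hy
  let S := MvPolynomial (Fin q) B
  let C := Localization.AtPrime 𝔔
  let I : Ideal S := (maximalIdeal B).map MvPolynomial.C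
  have hI : I ≤ 𝔔 := Ideal.map_le_iff_le_comap.2 h𝔔.ge
  have hlo : 𝔔.LiesOver (maximalIdeal B) := ⟨h𝔔.symm⟩
  have hT : IsRegularRing (S ⧸ I) := by
    let _ : Field (B ⧸ maximalIdeal B) := Ideal.Quotient.field _
    exact IsRegularRing.of_ringEquiv
      (MvPolynomial.quotientEquivQuotientMvPolynomial (σ := Fin q) (maximalIdeal B)).toRingEquiv
  let 𝔔' : Ideal (S ⧸ I) := 𝔔.map (Ideal.Quotient.mk I)
  have hp : 𝔔'.IsPrime := Ideal.map_isPrime_of_surjective Ideal.Quotient.mk_surjective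
    (by rwa [Ideal.mk_ker])
  have hcm : 𝔔 = 𝔔'.comap (Ideal.Quotient.mk I) := by
    rw [Ideal.comap_map_of_surjective' _ Ideal.Quotient.mk_surjective, Ideal.mk_ker,
      sup_eq_left.2 hI]
  have hM : 𝔔.primeCompl.map (Ideal.Quotient.mk I) = 𝔔'.primeCompl := by
    conv_lhs => rw [show 𝔔.primeCompl = 𝔔'.primeCompl.comap (Ideal.Quotient.mk I) from
      SetLike.ext fun x => not_congr (SetLike.ext_iff.1 hcm x)]
    exact Submonoid.map_comap_eq_of_surjective Ideal.Quotient.mk_surjective _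
  let C' := Localization.AtPrime 𝔔'
  have hC' : IsRegularLocalRing C' := inferInstance
  let ρ : C →+* C' := Localization.localRingHom 𝔔 𝔔' (Ideal.Quotient.mk I) hcm
  have hloc : IsLocalHom ρ := Localization.isLocalHom_localRingHom _ _ _ hcm
  have hρ : Function.Surjective ρ := by
    have : IsLocalization (𝔔.primeCompl.map (Ideal.Quotient.mk I)) C' :=
      hM.symm ▸ Localization.isLocalization
    exact IsLocalization.map_surjective_of_surjective _ _ _ Ideal.Quotient.mk_surjective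
  have hker : RingHom.ker ρ = I.map (algebraMap S C) :=
    (IsLocalization.ker_map C' (Ideal.Quotient.mk I) hM).trans (by rw [Ideal.mk_ker])
  have hcρ : (maximalIdeal C').comap ρ = maximalIdeal C :=
    ((IsLocalRing.local_hom_TFAE ρ).out 0 4).mp hloc
  obtain ⟨G, hG1, hG2⟩ := Submodule.FG.exists_span_finset_card_eq_spanFinrank
    (Ideal.fg_of_isNoetherianRing (maximalIdeal C'))
  choose g hgρ using hρ
  have hGG : maximalIdeal C' = (Ideal.span (g '' G)).map ρ := by
    rw [Ideal.map_span, Set.image_image]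
    simpa [hgρ] using hG2.symm
  have h1 : Ideal.span (Set.range (fun i => algebraMap S C (MvPolynomial.C (y i))) ∪
      ((algebraMap S C).comp MvPolynomial.C '' s ∪ g '' G)) = maximalIdeal C := by
    rw [← Set.union_assoc, Ideal.span_union, ← hcρ, hGG,
      Ideal.comap_map_of_surjective' ρ (fun z => ⟨g z, hgρ z⟩), hker, Ideal.map_map, ← hg,
      Ideal.map_span, Set.image_union, ← Set.range_comp, sup_comm]
    rfl
  refine an1d_conv _ _ ((hs.image _).union (G.finite_toSet.image g)) h1 ?_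
  have h2 := (Set.ncard_union_le _ _).trans (add_le_add
    (Set.ncard_image_le (f := (algebraMap S C).comp MvPolynomial.C) hs)
    (Set.ncard_image_le (f := g) G.finite_toSet))
  have h3 := Ideal.height_eq_height_add_of_liesOver_of_hasGoingDown (maximalIdeal B) 𝔔
  have h4 : (maximalIdeal B).height = ((maximalIdeal B).spanFinrank : ℕ∞) := by
    have := hB.spanFinrank_maximalIdeal
    rw [← maximalIdeal_height_eq_ringKrullDim] at this
    exact_mod_cast this.symm
  have h5 : 𝔔'.height = ((maximalIdeal C').spanFinrank : ℕ∞) := by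
    have := hC'.spanFinrank_maximalIdeal
    rw [IsLocalization.AtPrime.ringKrullDim_eq_height 𝔔'] at this
    exact_mod_cast this.symm
  rw [IsLocalization.AtPrime.ringKrullDim_eq_height 𝔔, h3, h4]
  change _ ≤ ((_ + 𝔔'.height : ℕ∞) : WithBot ℕ∞)
  rw [h5, ← hG1]
  rw [Set.ncard_coe_finset] at h2
  exact WithBot.coe_le_coe.2 (by exact_mod_cast (add_le_add_left h2 r).trans (by omega))
-- END AN1d

-- BEGIN AN1e
/-- The equations of the blow-up algebra generate the kernel, up to powers of `t`. -/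
theorem an1e_pow {B : Type} [CommRing B] {q : ℕ} (t : B) (s : Fin q → B)
    (G : MvPolynomial (Fin q) B) : ∃ (k : ℕ) (b : B), MvPolynomial.C t ^ k * G - MvPolynomial.C b ∈
      Ideal.span (Set.range fun i => MvPolynomial.C t * MvPolynomial.X i - MvPolynomial.C (s i)) := by
  induction G using MvPolynomial.induction_on with
  | C b => exact ⟨0, b, by simp⟩
  | add G H hG hH =>
    obtain ⟨k, b, hG⟩ := hG
    obtain ⟨l, c, hH⟩ := hH
    refine ⟨k + l, t ^ l * b + t ^ k * c, ?_⟩
    have := Ideal.add_mem _ (Ideal.mul_mem_left _ (MvPolynomial.C t ^ l) hG)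
      (Ideal.mul_mem_left _ (MvPolynomial.C t ^ k) hH)
    convert this using 1
    rw [map_add, map_mul, map_mul, map_pow, map_pow]
    ring
  | mul_X G i hG =>
    obtain ⟨k, b, hG⟩ := hG
    refine ⟨k + 1, b * s i, ?_⟩
    have := Ideal.add_mem _ (Ideal.mul_mem_left _ (MvPolynomial.C t * MvPolynomial.X i) hG)
      (Ideal.mul_mem_left _ (MvPolynomial.C b) (Ideal.subset_span ⟨i, rfl⟩))
    convert this using 1
    rw [map_mul]
    ring

/-- The blow-up algebra is generated by the quotients. -/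
theorem an1e_surj {B D A' : Type} [CommRing B] [CommRing D] [IsDomain D] [CommRing A']
    [Algebra B D] {χ : B →+* A'} {J : Ideal B} {t : B} {χ' : D →+* A'} (h : IsBlowAlg χ J t χ')
    {q : ℕ} (s : Fin q → B) (hs : J = Ideal.span (insert t (Set.range s)))
    (ht : algebraMap B D t ≠ 0) (y : Fin q → D)
    (hy : ∀ i, algebraMap B D t * y i = algebraMap B D (s i)) :
    Function.Surjective (MvPolynomial.aeval (R := B) y) := fun z => by
  have key : ∀ x ∈ J, ∃ w ∈ (MvPolynomial.aeval (R := B) y).range,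
      algebraMap B D t * w = algebraMap B D x := fun x hx => by
    rw [hs] at hx
    induction hx using Submodule.span_induction with
    | mem x hx =>
      obtain rfl | ⟨i, rfl⟩ := hx
      · exact ⟨1, one_mem _, mul_one _⟩
      · exact ⟨y i, ⟨MvPolynomial.X i, MvPolynomial.aeval_X _ _⟩, hy i⟩
    | zero => exact ⟨0, zero_mem _, by simp⟩
    | add a b _ _ ha hb =>
      obtain ⟨v, hv, ha⟩ := ha
      obtain ⟨w, hw, hb⟩ := hb
      exact ⟨v + w, add_mem hv hw, by rw [mul_add, ha, hb, map_add]⟩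
    | smul r a _ ha =>
      obtain ⟨v, hv, ha⟩ := ha
      exact ⟨algebraMap B D r * v, mul_mem (Subalgebra.algebraMap_mem _ _) hv, by
        rw [mul_left_comm, ha, smul_eq_mul, map_mul]⟩
  have hz : z ∈ Subring.closure (Set.range (algebraMap B D) ∪
    {y | ∃ x ∈ J, algebraMap B D t * y = algebraMap B D x}) := h.gen ▸ trivial
  refine (Subring.closure_le (t := (MvPolynomial.aeval (R := B) y).range.toSubring)).2 ?_ hz
  rintro _ (⟨b, rfl⟩ | ⟨x, hx, hz⟩)
  · exact Subalgebra.algebraMap_mem _ _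
  · obtain ⟨w, hw, hw'⟩ := key x hx
    exact mul_left_cancel₀ ht (hz.trans hw'.symm) ▸ hw

/-- **The blow-up algebra of a regular center is regular.** -/
theorem IsBlowAlg.isRegular {B D A' : Type} [CommRing B] (hB : IsRegularLocalRing B) [IsDomain B]
    [CommRing D] [IsDomain D] [CommRing A'] [Algebra B D] {χ : B →+* A'} {J : Ideal B} {t : B}
    {χ' : D →+* A'} (h : IsBlowAlg χ J t χ') {q : ℕ} (s : Fin q → B)
    (hs : J = Ideal.span (insert t (Set.range s))) (hJ : J ≤ maximalIdeal B)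
    (hind : ∀ (b₀ : B) (b : Fin q → B), b₀ * t + ∑ i, b i * s i ∈ maximalIdeal B ^ 2 →
      b₀ ∈ maximalIdeal B ∧ ∀ i, b i ∈ maximalIdeal B)
    (𝔮 : Ideal D) [𝔮.IsPrime] (h𝔮 : 𝔮.comap (algebraMap B D) = maximalIdeal B) :
    IsRegularLocalRing (Localization.AtPrime 𝔮) := by
  have ht : algebraMap B D t ≠ 0 := fun h0 => h.ne (by
    rw [h.inj (h0.trans (map_zero _).symm), map_zero])
  have hsJ : ∀ i, s i ∈ J := fun i => hs ▸ Ideal.subset_span (Or.inr ⟨i, rfl⟩)
  choose y hy using fun i => h.dvd (s i) (hsJ i)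
  have hsurj := an1e_surj h s hs ht y fun i => (hy i).symm
  set π := MvPolynomial.aeval (R := B) y
  set 𝔔 := 𝔮.comap (π : MvPolynomial (Fin q) B →+* D)
  have hC : ∀ b, π (MvPolynomial.C b) = algebraMap B D b := fun b => MvPolynomial.aeval_C _ _
  have h𝔔 : 𝔔.comap (MvPolynomial.C (σ := Fin q) (R := B)) = maximalIdeal B := by
    rw [← h𝔮]
    ext b
    exact (congrArg (· ∈ 𝔮) (hC b)).to_iff
  obtain ⟨hO, hi⟩ := regular_mvPolynomial hB 𝔔 h𝔔 (Fin.cons t s : Fin (q + 1) → B)
    (Fin.cases (hJ h.mem) fun i => hJ (hsJ i)) fun b hb => by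
      rw [Fin.sum_univ_succ] at hb
      exact Fin.cases (hind _ _ hb).1 (hind _ (fun i => b i.succ) hb).2
  let O := Localization.AtPrime 𝔔
  let a := algebraMap (MvPolynomial (Fin q) B) O
  let e : Fin q → MvPolynomial (Fin q) B := fun i =>
    MvPolynomial.C t * MvPolynomial.X i - MvPolynomial.C (s i)
  have he : ∀ i, π (e i) = 0 := fun i => by
    rw [map_sub, map_mul, hC, hC, MvPolynomial.aeval_X, hy, sub_self]
  have hf : ∀ i, a (e i) ∈ maximalIdeal O := fun i =>
    (IsLocalization.AtPrime.to_map_mem_maximal_iff O 𝔔 _).2 (by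
      change π (e i) ∈ 𝔮
      rw [he]
      exact zero_mem _)
  have hi' : ∀ (b₀ : O) (b : Fin q → O), b₀ * a (MvPolynomial.C t) + ∑ i, b i * a (e i) ∈
      maximalIdeal O ^ 2 → b₀ ∈ maximalIdeal O ∧ ∀ i, b i ∈ maximalIdeal O := fun b₀ b hb => by
    have h1 := hi (Fin.cons (b₀ + ∑ i, b i * a (MvPolynomial.X i)) fun i => - b i) (by
      rw [Fin.sum_univ_succ]
      convert hb using 1
      simp only [Fin.cons_zero, Fin.cons_succ]
      rw [add_mul, Finset.sum_mul, add_assoc, ← Finset.sum_add_distrib]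
      refine congrArg₂ (· + ·) rfl (Finset.sum_congr rfl fun i _ => ?_)
      change _ = b i * a (_ - _)
      rw [map_sub, map_mul]
      change b i * a _ * a _ + -b i * a _ = _
      ring)
    have h2 : ∀ i, b i ∈ maximalIdeal O := fun i => neg_mem_iff.1 (h1 i.succ)
    exact ⟨(Ideal.add_mem_iff_left _ (Ideal.sum_mem _ fun i _ =>
      Ideal.mul_mem_right _ _ (h2 i))).1 (h1 0), h2⟩
  have hR := isRegularLocalRing_quotient_range q O hO (fun i => a (e i)) hf fun b hb =>
    (hi' 0 b (by simpa using hb)).2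
  have hD := isDomain_aux _ (O ⧸ Ideal.span (Set.range fun i => a (e i))) le_rfl
  have hP := (Ideal.Quotient.isDomain_iff_prime _).1 hD
  have htI : a (MvPolynomial.C t) ∉ Ideal.span (Set.range fun i => a (e i)) := fun ht' => by
    obtain ⟨c, hc⟩ := Ideal.mem_span_range_iff_exists_fun.1 ht'
    refine (Ideal.ne_top_iff_one _).1 (maximalIdeal.isMaximal O).ne_top
      (hi' 1 (fun i => - c i) ?_).1
    rw [one_mul, ← hc, ← Finset.sum_add_distrib,
      Finset.sum_eq_zero fun i _ => by ring]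
    exact zero_mem _
  let ρ := Localization.localRingHom 𝔔 𝔮 (π : MvPolynomial (Fin q) B →+* D) rfl
  have hρ : ∀ G, ρ (a G) = algebraMap D _ (π G) := fun G => Localization.localRingHom_to_map _ _ _ _ _
  have hρs : Function.Surjective ρ := fun z => by
    obtain ⟨x, u, rfl⟩ := IsLocalization.exists_mk'_eq 𝔮.primeCompl z
    obtain ⟨G, rfl⟩ := hsurj x
    obtain ⟨U, hU⟩ := hsurj u
    have hU' : U ∈ 𝔔.primeCompl := fun h0 => u.2 (hU ▸ h0)
    refine ⟨IsLocalization.mk' O G ⟨U, hU'⟩, ?_⟩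
    rw [Localization.localRingHom_mk']
    congr 1
    exact Subtype.ext hU
  have hker : RingHom.ker ρ = Ideal.span (Set.range fun i => a (e i)) := by
    refine le_antisymm (fun z hz => ?_) (Ideal.span_le.2 ?_)
    · obtain ⟨G, u, rfl⟩ := IsLocalization.exists_mk'_eq 𝔔.primeCompl z
      have h1 : ρ (a G) = 0 := by
        rw [← IsLocalization.mk'_spec O G u, map_mul, RingHom.mem_ker.1 hz, zero_mul]
      rw [hρ, map_eq_zero_iff _ (IsLocalization.injective (Localization.AtPrime 𝔮)
        𝔮.primeCompl_le_nonZeroDivisors)] at h1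
      obtain ⟨k, b, hk⟩ := an1e_pow t s G
      have h2 : ∀ x ∈ Ideal.span (Set.range e), π x = 0 := fun x hx =>
        (Ideal.span_le (I := RingHom.ker (π : MvPolynomial (Fin q) B →+* D))).2
          (by rintro _ ⟨i, rfl⟩; exact he i) hx
      have h3 := h2 _ hk
      rw [map_sub, map_mul, h1, mul_zero, zero_sub, neg_eq_zero, hC] at h3
      rw [h.inj (h3.trans (map_zero _).symm), map_zero, sub_zero] at hk
      have h4 := Ideal.mem_map_of_mem a hk
      rw [Ideal.map_span, ← Set.range_comp, map_mul, map_pow] at h4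
      rw [IsLocalization.mk'_eq_mul_mk'_one]
      exact Ideal.mul_mem_right _ _ ((hP.mem_or_mem h4).resolve_left fun h5 =>
        htI (hP.mem_of_pow_mem _ h5))
    · rintro _ ⟨i, rfl⟩
      rw [SetLike.mem_coe, RingHom.mem_ker, hρ, he, map_zero]
  exact IsRegularLocalRing.of_ringEquiv (R := O ⧸ Ideal.span (Set.range fun i => a (e i)))
    ((Ideal.quotEquivOfEq hker.symm).trans (RingHom.quotientKerEquivOfSurjective hρs))
-- END AN1e

-- BEGIN AN1f
/-- Exchange, with independence. -/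
theorem exists_gens_insert' {B : Type} [CommRing B] [IsLocalRing B] {J : Ideal B} {r : ℕ}
    (s : Fin r → B) (hs : J = Ideal.span (Set.range s))
    (hi : ∀ b : Fin r → B, ∑ i, b i * s i ∈ maximalIdeal B ^ 2 → ∀ i, b i ∈ maximalIdeal B) {t : B}
    (ht : t ∈ J) (ht' : t ∉ maximalIdeal B * J) :
    ∃ (q : ℕ) (s' : Fin q → B), J = Ideal.span (insert t (Set.range s')) ∧
      ∀ (b₀ : B) (b : Fin q → B), b₀ * t + ∑ i, b i * s' i ∈ maximalIdeal B ^ 2 →
        b₀ ∈ maximalIdeal B ∧ ∀ i, b i ∈ maximalIdeal B := by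
  have hsJ : ∀ i, s i ∈ J := fun i => hs ▸ Ideal.subset_span ⟨i, rfl⟩
  obtain ⟨c, hc⟩ := Ideal.mem_span_range_iff_exists_fun.1 (hs ▸ ht)
  obtain ⟨i₀, hi₀⟩ : ∃ i, IsUnit (c i) := by
    by_contra! h
    exact ht' (hc ▸ Ideal.sum_mem _ fun i _ => Ideal.mul_mem_mul (h i) (hsJ i))
  obtain _ | q := r
  · exact i₀.elim0
  refine ⟨q, s ∘ i₀.succAbove, le_antisymm ?_ ?_, fun b₀ b hb => ?_⟩
  · conv_lhs => rw [hs]
    rw [Ideal.span_le]
    rintro _ ⟨i, rfl⟩
    exact am2c_mem s i₀ c hi₀ _ (hc ▸ Ideal.subset_span (Or.inl rfl))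
      (fun j => Ideal.subset_span (Or.inr ⟨j, rfl⟩)) i
  · rw [Ideal.span_le]
    rintro _ (rfl | ⟨j, rfl⟩)
    exacts [ht, hsJ _]
  · have h1 := hi (i₀.insertNth (b₀ * c i₀) fun j => b₀ * c (i₀.succAbove j) + b j) (by
      convert hb using 1
      rw [← hc, Fin.sum_univ_succAbove _ i₀, Fin.sum_univ_succAbove _ i₀]
      simp only [Fin.insertNth_apply_same, Fin.insertNth_apply_succAbove, mul_add, Finset.mul_sum,
        add_mul, Finset.sum_add_distrib, Function.comp, mul_assoc, add_assoc])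
    have h2 := h1 i₀
    rw [Fin.insertNth_apply_same, Ideal.mul_unit_mem_iff_mem _ hi₀] at h2
    refine ⟨h2, fun j => ?_⟩
    have h3 := h1 (i₀.succAbove j)
    rw [Fin.insertNth_apply_succAbove] at h3
    exact (Ideal.add_mem_iff_right _ (Ideal.mul_mem_right _ _ h2)).1 h3
-- END AN1f

-- BEGIN AN1g
/-- The height of the kernel does not increase. -/
theorem IsBlowAlg.height_le {B D A' : Type} [CommRing B] [IsDomain B] [CommRing D] [CommRing A']
    [IsDomain A'] [Algebra B D] [IsDomain D] {χ : B →+* A'} {J : Ideal B} {t : B} {χ' : D →+* A'}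
    (h : IsBlowAlg χ J t χ') : (RingHom.ker χ').height ≤ (RingHom.ker χ).height := by
  have hp := RingHom.ker_isPrime χ
  have hp' := RingHom.ker_isPrime χ'
  have h1 := PrimeSpectrum.height_eq_orderHeight ⟨RingHom.ker χ, hp⟩
  have h2 := PrimeSpectrum.height_eq_orderHeight ⟨RingHom.ker χ', hp'⟩
  change (RingHom.ker χ).height = _ at h1
  change (RingHom.ker χ').height = _ at h2
  rw [h1, h2]
  refine Order.height_le fun p hp => ?_
  have hle : ∀ i, (p i).asIdeal ≤ RingHom.ker χ' := fun i =>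
    ((p.monotone (Fin.le_last i)).trans hp.le : p i ≤ _)
  have hlt : ∀ i : Fin p.length, p i.castSucc < p i.succ := p.step
  refine Order.length_le_height (p := LTSeries.mk p.length (fun i =>
    PrimeSpectrum.comap (algebraMap B D) (p i)) (Fin.strictMono_iff_lt_succ.2 fun i =>
      lt_of_le_not_ge (fun b hb => ?_) fun hb => ?_)) fun b hb => ?_
  · exact (hlt i).le hb
  · refine (hlt i).not_ge fun z hz => ?_
    obtain ⟨k, b, hk⟩ := h.loc z
    have h3 : algebraMap B D t ^ k * z ∈ (p i.castSucc).asIdeal := by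
      rw [hk]
      exact hb (show algebraMap B D b ∈ (p i.succ).asIdeal from hk ▸ Ideal.mul_mem_left _ _ hz)
    exact ((p i.castSucc).2.mem_or_mem h3).resolve_left fun h4 =>
      h.ne ((h.comp t).symm.trans (hle _ ((p i.castSucc).2.mem_of_pow_mem k h4)))
  · exact (h.comp b).symm.trans (hle _ hb)
-- END AN1g

-- BEGIN AN1h
/-- **The potential drops.** -/
theorem Pot.step {A A' V : Type} [CommRing A] [IsDomain A] [IsNoetherianRing A] [IsLocalRing A]
    [CommRing A'] [IsDomain A'] [IsLocalRing A'] [CommRing V] [IsDomain V]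
    [IsDiscreteValuationRing V] {𝔱 : Ideal A} (hreg : IsRegularLocalRing (A ⧸ 𝔱))
    (hfree : ConFree 𝔱) {φ : A →+* A'} (hφ : Function.Injective φ) (hφl : IsLocalHom φ)
    (hqt : IsQTI 𝔱 φ) {α : A →+* V} {α' : A' →+* V} (hα' : IsLocalHom α') (hαφ : α'.comp φ = α)
    (hA : ¬ IsRegularLocalRing A) {n : ℕ} (h : Pot α n) : ∃ m < n, Pot α' m := by
  obtain ⟨f, hf, hf0, hdvd, hgenf⟩ := hqt.ex
  obtain ⟨c, B, iB, ψ, θ, g, hB, hψ, hht, hg, hn⟩ := h
  have hBd : IsDomain B := isDomain_aux _ B le_rfl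
  obtain ⟨t, rfl⟩ := hψ f
  obtain ⟨D, iD, aD, χ', hD, hb⟩ := exists_blowAlg (φ.comp ψ) (𝔱.comap ψ) (t := t) hf hf0
    (fun x hx => hdvd (ψ x) hx)
  have hgen : ∀ z : A', ∃ p q : D, IsUnit (χ' q) ∧ χ' q * z = χ' p := by
    intro z
    obtain ⟨p, hp, q, hq, hqu, hqz⟩ := hgenf z
    have hr : blowSubI 𝔱 φ (ψ t) ≤ χ'.range := by
      rw [blowSubI, Subring.closure_le]
      rintro x (⟨a, rfl⟩ | ⟨g, hg, hx⟩)
      · obtain ⟨b, rfl⟩ := hψ a
        exact ⟨algebraMap B D b, hb.comp b⟩
      · obtain ⟨y, rfl⟩ := hψ g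
        obtain ⟨w, hw⟩ := hb.dvd y hg
        refine ⟨w, mul_left_cancel₀ hf0 (Eq.trans ?_ hx.symm)⟩
        have e := congrArg χ' hw
        rw [map_mul, hb.comp, hb.comp] at e
        exact e.symm
    obtain ⟨p', rfl⟩ := hr hp
    obtain ⟨q', rfl⟩ := hr hq
    exact ⟨p', q', hqu, hqz⟩
  have hB' : IsRegularLocalRing (Localization.AtPrime ((maximalIdeal A').comap χ')) := by
    have hk : 𝔱.comap ψ = RingHom.ker ((Ideal.Quotient.mk 𝔱).comp ψ) := by
      rw [← RingHom.comap_ker, Ideal.mk_ker]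
    have hJr : IsRegularLocalRing (B ⧸ 𝔱.comap ψ) := IsRegularLocalRing.of_ringEquiv
      ((Ideal.quotEquivOfEq hk).trans (RingHom.quotientKerEquivOfSurjective
        (Ideal.Quotient.mk_surjective.comp hψ))).symm
    obtain ⟨r, s, hs, -, hi⟩ := exists_gens_of_regular_quotient hB _ hJr
    obtain ⟨q, s', hq, hs'⟩ := exists_gens_insert' s hs hi hb.mem (not_mem_mul ψ hψ φ hφl hf0 hdvd)
    have hψl : IsLocalHom ψ := IsLocalHom.of_surjective ψ hψ
    refine hb.isRegular hB s' hq
      (IsLocalRing.le_maximalIdeal (Ideal.Quotient.nontrivial_iff.1 inferInstance)) hs' _ ?_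
    have e : χ'.comp (algebraMap B D) = φ.comp ψ := RingHom.ext hb.comp
    rw [Ideal.comap_comap, e, ← Ideal.comap_comap, IsLocalRing.maximalIdeal_comap,
      IsLocalRing.maximalIdeal_comap]
  obtain ⟨ψ', hψ'1, hψ'2, hψ'3⟩ := exists_local_surjection χ' hgen
  obtain ⟨ρ, h, hρ, h0, hrel⟩ := exists_relations hB ψ hψ hreg hfree hA hht
  obtain ⟨g', k₀, hg', hk₀, hn'⟩ := exists_equations ψ hψ hρ h h0 hrel θ g hg α hn
  choose θ' hθ' using hb.der
  have hy : ∀ k, ∃ y : D, (k = k₀ → algebraMap B D t ^ 2 * y = algebraMap B D (g' k)) ∧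
      (k ≠ k₀ → algebraMap B D t * y = algebraMap B D (g' k)) := by
    intro k
    by_cases hk : k = k₀
    · subst hk
      have h1 : (𝔱.comap ψ).map (algebraMap B D) ≤ Ideal.span {algebraMap B D t} :=
        Ideal.map_le_iff_le_comap.2 fun x hx => Ideal.mem_span_singleton.2 (hb.dvd x hx)
      have h2 := Ideal.pow_right_mono h1 2 ((Ideal.map_pow (algebraMap B D) _ 2).le
        (Ideal.mem_map_of_mem (algebraMap B D) hk₀))
      rw [Ideal.span_singleton_pow, Ideal.mem_span_singleton] at h2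
      obtain ⟨y, hy⟩ := h2
      exact ⟨y, fun _ => hy.symm, fun h => absurd rfl h⟩
    · obtain ⟨y, hy⟩ := hb.dvd (g' k) (by rw [Ideal.mem_comap, hg']; exact 𝔱.zero_mem)
      exact ⟨y, fun h => absurd h hk, fun _ => hy.symm⟩
  choose y hy1 hy2 using hy
  obtain ⟨hy0, hdet⟩ := hb.det θ (fun l => θ' (θ l)) (fun l b => hθ' _ b) g'
    (fun k => by rw [RingHom.comp_apply, hg', map_zero]) y k₀ (hy1 k₀ rfl) hy2
  choose θ'' hθ'' using fun l => exists_derivation_localization
    (S := Localization.AtPrime ((maximalIdeal A').comap χ'))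
    ((maximalIdeal A').comap χ').primeCompl (θ' (θ l))
  have hval : addVal V (α' (φ (ψ t))) +
      addVal V (α' (χ' (Matrix.of fun l k : Fin c => θ' (θ l) (y k)).det)) ≤ n := by
    rw [← addVal_mul, ← map_mul]
    refine le_trans (le_of_eq ?_) hn'
    rw [← hαφ]
    exact congrArg (fun z => addVal V (α' z)) hdet
  have h𝔱 : 𝔱 ≤ maximalIdeal A :=
    IsLocalRing.le_maximalIdeal (Ideal.Quotient.nontrivial_iff.1 inferInstance)
  have h1 : (1 : ℕ∞) ≤ addVal V (α' (φ (ψ t))) := by
    rw [Order.one_le_iff_ne_zero, Ne, addVal_eq_zero_iff, isUnit_map_iff, isUnit_map_iff]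
    exact h𝔱 hf
  obtain ⟨m, hm⟩ := ENat.ne_top_iff_exists.1
    (ne_top_of_le_ne_top (ENat.natCast_ne_top n) (le_add_self.trans hval))
  rw [← hm] at hval
  refine ⟨m, ?_, c, _, _, ψ', θ'', fun k => algebraMap D _ (y k), hB', hψ'2, ?_,
    fun k => by rw [hψ'1, hy0], ?_⟩
  · have h2 : ((1 + m : ℕ) : ℕ∞) ≤ n := by
      push_cast
      exact (add_le_add_left h1 _).trans hval
    have h3 : 1 + m ≤ n := by exact_mod_cast h2
    omega
  · rw [hψ'3]
    refine hb.height_le.trans ?_
    rwa [RingHom.ker_comp_of_injective ψ hφ]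
  · refine le_of_eq ?_
    rw [hm, ← hψ'1, (algebraMap D (Localization.AtPrime ((maximalIdeal A').comap χ'))).map_det]
    exact congrArg (fun M : Matrix (Fin c) (Fin c) _ => addVal V (α' (ψ' M.det)))
      (Matrix.ext fun l k => hθ'' l (y k))
-- END AN1h

-- BEGIN AN1i
/-- A domain of finite type over `ℤ`, of characteristic zero, has a point over a number field. -/
theorem exists_algebraic_point (R : Type) [CommRing R] [IsDomain R] [CharZero R]
    [Algebra.FiniteType ℤ R] :
    ∃ (L : Type) (_ : Field L) (ψ : R →+* L), CharZero L ∧ ∀ x, IsAlgebraic ℤ (ψ x) := by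
  obtain ⟨K, _, j, hj⟩ : ∃ (K : Type) (_ : Field K) (j : R →+* K), Function.Injective j :=
    ⟨FractionRing R, inferInstance, algebraMap _ _, IsFractionRing.injective R _⟩
  have : CharZero K := charZero_of_injective_ringHom hj
  have : Nontrivial (TensorProduct ℤ ℚ R) := (Algebra.TensorProduct.productMap
    (algebraMap ℚ K).toIntAlgHom j.toIntAlgHom).toRingHom.domain_nontrivial
  obtain ⟨𝔪, h𝔪⟩ := Ideal.exists_maximal (TensorProduct ℤ ℚ R)
  let _ : Field (TensorProduct ℤ ℚ R ⧸ 𝔪) := Ideal.Quotient.field 𝔪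
  have : Algebra.FiniteType ℚ (TensorProduct ℤ ℚ R ⧸ 𝔪) :=
    Algebra.FiniteType.of_surjective (Ideal.Quotient.mkₐ ℚ 𝔪) Ideal.Quotient.mk_surjective
  have : Module.Finite ℚ (TensorProduct ℤ ℚ R ⧸ 𝔪) := finite_of_finite_type_of_isJacobsonRing _ _
  refine ⟨TensorProduct ℤ ℚ R ⧸ 𝔪, inferInstance, (Ideal.Quotient.mk 𝔪).comp
    (Algebra.TensorProduct.includeRight (R := ℤ) (A := ℚ) (B := R)).toRingHom,
    algebraRat.charZero _, fun x => ?_⟩
  exact (IsFractionRing.isAlgebraic_iff ℤ ℚ (TensorProduct ℤ ℚ R ⧸ 𝔪)).2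
    (Algebra.IsAlgebraic.isAlgebraic _)
-- END AN1i

-- BEGIN AN1j
/-- The kernel of a presentation has height at most `c`. -/
theorem Pres.height_le {R : Type} [CommRing R] [IsDomain R] [CharZero R] (P : Pres R)
    (hreg : ∀ (𝔭 : Ideal R) [𝔭.IsPrime], (∀ n : ℕ, n ≠ 0 → (n : R) ∉ 𝔭) →
      IsRegularLocalRing (Localization.AtPrime 𝔭)) :
    (RingHom.ker P.π).height ≤ P.c := by
  have : Algebra.FiniteType ℤ R := Algebra.FiniteType.iff_quotient_mvPolynomial''.2
    ⟨P.N, { P.π with commutes' := fun m => eq_intCast (P.π.comp MvPolynomial.C) m }, P.surj⟩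
  obtain ⟨L, _, χ, hL, halg⟩ := exists_algebraic_point R
  obtain ⟨𝔭, hp⟩ : ∃ 𝔭, 𝔭 = RingHom.ker χ := ⟨_, rfl⟩
  have : 𝔭.IsPrime := hp ▸ RingHom.ker_isPrime χ
  have h𝔭 : ∀ n : ℕ, n ≠ 0 → (n : R) ∉ 𝔭 := fun n hn h => hn (by
    rw [hp, RingHom.mem_ker, map_natCast] at h
    exact_mod_cast h)
  have h0 := pres_dim P χ halg 𝔭 hp (hreg 𝔭 h𝔭)
  have h1 := am3f_height (𝔭.comap P.π) fun m hm h => by
    have e0 : P.π (MvPolynomial.C m) = (m : R) := eq_intCast (P.π.comp MvPolynomial.C) m
    rw [Ideal.mem_comap, e0] at h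
    refine h𝔭 m.natAbs (Int.natAbs_ne_zero.2 hm) ?_
    rcases Int.natAbs_eq m with e | e
    · rw [e] at h
      simpa using h
    · rw [e] at h
      simpa using h
  let ψ := Localization.localRingHom (𝔭.comap P.π) 𝔭 P.π rfl
  have hψ : Function.Surjective ψ :=
    (RingHom.surjectiveOnStalks_of_surjective P.surj).localRingHom_surjective _ 𝔭 rfl
  have h4 := ringKrullDim_add_height_le ψ hψ
  have h5 : (RingHom.ker ψ).under (MvPolynomial (Fin P.N) ℤ) = RingHom.ker P.π := by
    ext x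
    rw [Ideal.mem_comap, RingHom.mem_ker, RingHom.mem_ker, Localization.localRingHom_to_map]
    exact map_eq_zero_iff _ (IsLocalization.injective _ 𝔭.primeCompl_le_nonZeroDivisors)
  rw [← IsLocalization.height_under (𝔭.comap P.π).primeCompl (RingHom.ker ψ), h5,
    IsLocalization.AtPrime.ringKrullDim_eq_height (𝔭.comap P.π)
      (Localization.AtPrime (𝔭.comap P.π))] at h4
  have h6 : ((P.N - P.c : ℕ) : ℕ∞) + (RingHom.ker P.π).height ≤ P.N :=
    WithBot.coe_le_coe.1 ((add_le_add h0 le_rfl).trans (h4.trans h1))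
  refine (ENat.add_le_add_iff_left (ENat.natCast_ne_top (P.N - P.c))).1 (h6.trans (le_of_eq ?_))
  rw [← Nat.cast_add, Nat.sub_add_cancel P.c_le]
-- END AN1j

-- BEGIN AN1k
/-- The initial bound for the potential. -/
theorem Pres.pot {R : Type} [CommRing R] [IsDomain R] [CharZero R] (P : Pres R)
    (hreg : ∀ (𝔭 : Ideal R) [𝔭.IsPrime], (∀ n : ℕ, n ≠ 0 → (n : R) ∉ 𝔭) →
      IsRegularLocalRing (Localization.AtPrime 𝔭)) (𝔪 : Ideal R) [𝔪.IsPrime] {V : Type}
    [CommRing V] [IsDomain V] [IsDiscreteValuationRing V] [CharZero V]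
    (α : Localization.AtPrime 𝔪 →+* V) {d : ℕ}
    (hV : ∀ p : ℕ, p.Prime → addVal V (p : V) ≤ d) : Pot α (P.c * (P.a * d)) := by
  have h𝔫 : (𝔪.comap P.π).IsPrime := Ideal.IsPrime.comap _
  have hr0 := (MvPolynomial.isRegularRing_of_isRegularRing ℤ
    (ι := Fin P.N)).isRegularLocalRing_localization (𝔪.comap P.π)
  let ψ := Localization.localRingHom (𝔪.comap P.π) 𝔪 P.π rfl
  have hψ : Function.Surjective ψ := RingHom.surjective_localRingHom_of_surjective _ P.surj _
  have hψa (x) : ψ (algebraMap _ _ x) = algebraMap R _ (P.π x) :=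
    Localization.localRingHom_to_map _ _ _ _ x
  have hker : (RingHom.ker ψ).height = (RingHom.ker P.π).height := by
    rw [← IsLocalization.height_under (𝔪.comap P.π).primeCompl (RingHom.ker ψ)]
    congr 1
    ext x
    have hi := IsLocalization.injective (Localization.AtPrime 𝔪)
      𝔪.primeCompl_le_nonZeroDivisors
    simp only [Ideal.under, Ideal.mem_comap, RingHom.mem_ker, hψa]
    exact map_eq_zero_iff _ hi
  choose θ hθ using fun l : Fin P.N => exists_derivation_localization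
    (S := Localization.AtPrime (𝔪.comap P.π)) (𝔪.comap P.π).primeCompl
    ((MvPolynomial.pderiv (R := ℤ) l))
  let β : R →+* V := α.comp (algebraMap R _)
  have hM : P.M.map β * P.M.map β = (P.a : V) • P.M.map β := by
    rw [← Matrix.map_mul, P.M_sq]
    ext i j
    simp
  have hr : ((P.M.map β).map (algebraMap V (FractionRing V))).rank = P.c := by
    have : CharZero (FractionRing V) := inferInstance
    rw [← P.rank_eq ((algebraMap V (FractionRing V)).comp β)]
    rfl
  obtain ⟨σ, -, hσ⟩ := exists_minor (P.M.map β) (Nat.cast_ne_zero.2 P.a_ne) hM hr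
  refine ⟨P.c, _, inferInstance, ψ, fun l => θ (σ l), fun k => algebraMap _ _ (P.γ (σ k)), hr0,
    hψ, hker.le.trans (P.height_le hreg), fun k => by rw [hψa, P.γ_mem, map_zero], ?_⟩
  have hdet : α (ψ (Matrix.of fun l k : Fin P.c =>
      θ (σ l) (algebraMap _ _ (P.γ (σ k)))).det) = ((P.M.map β).submatrix σ σ).det := by
    rw [RingHom.map_det, RingHom.map_det]
    congr 1
    ext l k
    simp only [RingHom.mapMatrix_apply, Matrix.map_apply, Matrix.of_apply, Matrix.submatrix_apply,
      hθ, hψa, Pres.M, β]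
    rfl
  rw [hdet]
  refine hσ.trans ?_
  rw [nsmul_eq_mul]
  exact_mod_cast mul_le_mul_right (addVal_natCast_le hV P.a_ne) (P.c : ℕ∞)
-- END AN1k

end Pool.Agent.Lib.MP_6a3dac_ag.NU
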