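import Pool.Agent.Lib.MP_6a3dac_ag.Mg.G050
import Pool.Agent.Lib.MP_6a3dac_ag.Mg.G070

/-!
# NU: the ring of twisted Witt vectors of length two, and the extension of Witt derivations
-/

set_option autoImplicit false

namespace Pool.Agent.Lib.MP_6a3dac_ag.NU

open IsLocalRing IsDiscreteValuationRing

-- BEGIN W1a
theorem map_wP {R S : Type} [CommRing R] [CommRing S] (p : ℕ) (φ : R →+* S) (a b : R) :
    φ (wP p a b) = wP p (φ a) (φ b) := by
  simp [wP, map_sum]

theorem p_mul_wP {R : Type} [CommRing R] {p : ℕ} (hp : p.Prime) (a b : R) :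
    (p : R) * wP p a b = (a + b) ^ p - a ^ p - b ^ p := by
  have h1 : ∀ i ∈ Finset.Ico 1 p, (p : R) * (((p.choose i / p : ℕ) : R) * (a ^ i * b ^ (p - i))) =
      a ^ i * b ^ (p - i) * (p.choose i : R) := by
    intro i hi
    rw [Finset.mem_Ico] at hi
    have h2 : p ∣ p.choose i := hp.dvd_choose_self (by omega) hi.2
    have h3 : (p : R) * ((p.choose i / p : ℕ) : R) = (p.choose i : R) := by
      rw [← Nat.cast_mul, Nat.mul_div_cancel' h2]
    rw [← mul_assoc, h3]
    ring
  rw [wP, Finset.mul_sum, Finset.sum_congr rfl h1, add_pow, Finset.sum_range_succ,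
    Finset.range_eq_Ico, Finset.sum_eq_sum_Ico_succ_bot hp.pos]
  simp

theorem wP_zero_left {R : Type} [CommRing R] (p : ℕ) (b : R) : wP p 0 b = 0 := by
  refine Finset.sum_eq_zero fun i hi => ?_
  rw [Finset.mem_Ico] at hi
  rw [zero_pow (by omega), zero_mul, mul_zero]

theorem wP_zero_right {R : Type} [CommRing R] (p : ℕ) (a : R) : wP p a 0 = 0 := by
  refine Finset.sum_eq_zero fun i hi => ?_
  rw [Finset.mem_Ico] at hi
  rw [zero_pow (by omega), mul_zero, mul_zero]

theorem wP_mul {R : Type} [CommRing R] (p : ℕ) (c a b : R) :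
    wP p (c * a) (c * b) = c ^ p * wP p a b := by
  rw [wP, wP, Finset.mul_sum]
  refine Finset.sum_congr rfl fun i hi => ?_
  rw [Finset.mem_Ico] at hi
  have h : c ^ p = c ^ i * c ^ (p - i) := by rw [← pow_add]; congr 1; omega
  rw [h, mul_pow, mul_pow]
  ring

/-- The identities of `wP` in characteristic zero imply those in all rings. -/
theorem wP_comm {R : Type} [CommRing R] {p : ℕ} (hp : p.Prime) (a b : R) :
    wP p a b = wP p b a := by
  have h : wP p (MvPolynomial.X 0 : MvPolynomial (Fin 2) ℤ) (MvPolynomial.X 1) =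
      wP p (MvPolynomial.X 1) (MvPolynomial.X 0) := by
    refine mul_left_cancel₀ (Nat.cast_ne_zero.2 hp.ne_zero) ?_
    rw [p_mul_wP hp, p_mul_wP hp]
    ring
  have h1 := congrArg (MvPolynomial.eval₂Hom (Int.castRingHom R) ![a, b]) h
  rw [map_wP, map_wP] at h1
  simpa using h1

theorem wP_assoc {R : Type} [CommRing R] {p : ℕ} (hp : p.Prime) (a b c : R) :
    wP p a b + wP p (a + b) c = wP p b c + wP p a (b + c) := by
  have h : wP p (MvPolynomial.X 0 : MvPolynomial (Fin 3) ℤ) (MvPolynomial.X 1) +
      wP p (MvPolynomial.X 0 + MvPolynomial.X 1) (MvPolynomial.X 2) =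
      wP p (MvPolynomial.X 1) (MvPolynomial.X 2) +
      wP p (MvPolynomial.X 0) (MvPolynomial.X 1 + MvPolynomial.X 2) := by
    refine mul_left_cancel₀ (Nat.cast_ne_zero.2 hp.ne_zero) ?_
    rw [mul_add, mul_add, p_mul_wP hp, p_mul_wP hp, p_mul_wP hp, p_mul_wP hp]
    ring
  have h1 := congrArg (MvPolynomial.eval₂Hom (Int.castRingHom R) ![a, b, c]) h
  simp only [map_add, map_wP] at h1
  simpa using h1
-- END W1a

-- BEGIN W1b
variable {p : ℕ} {V : Type} [CommRing V] {L : V}

namespace WE

@[ext] theorem ext' {x y : WE p L} (h1 : x.fst = y.fst) (h2 : x.snd = y.snd) : x = y := by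
  cases x
  cases y
  simp_all

instance : Add (WE p L) := ⟨fun x y => ⟨x.fst + y.fst, x.snd + y.snd - L * wP p x.fst y.fst⟩⟩
instance : Mul (WE p L) := ⟨fun x y => ⟨x.fst * y.fst, x.fst ^ p * y.snd + y.fst ^ p * x.snd⟩⟩
instance : Zero (WE p L) := ⟨⟨0, 0⟩⟩
instance : One (WE p L) := ⟨⟨1, 0⟩⟩
instance : Neg (WE p L) := ⟨fun x => ⟨-x.fst, -x.snd + L * wP p x.fst (-x.fst)⟩⟩

theorem add_fst (x y : WE p L) : (x + y).fst = x.fst + y.fst := rfl
theorem add_snd (x y : WE p L) : (x + y).snd = x.snd + y.snd - L * wP p x.fst y.fst := rfl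
theorem mul_fst (x y : WE p L) : (x * y).fst = x.fst * y.fst := rfl
theorem mul_snd (x y : WE p L) : (x * y).snd = x.fst ^ p * y.snd + y.fst ^ p * x.snd := rfl
theorem zero_fst : (0 : WE p L).fst = 0 := rfl
theorem zero_snd : (0 : WE p L).snd = 0 := rfl
theorem one_fst : (1 : WE p L).fst = 1 := rfl
theorem one_snd : (1 : WE p L).snd = 0 := rfl
theorem neg_fst (x : WE p L) : (-x).fst = -x.fst := rfl
theorem neg_snd (x : WE p L) : (-x).snd = -x.snd + L * wP p x.fst (-x.fst) := rfl

/-- The commutative ring structure. -/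
@[reducible] def commRing (hp : p.Prime) [CharP V p] : CommRing (WE p L) :=
  have hpow : ∀ a b : V, (a + b) ^ p = a ^ p + b ^ p := fun a b => by
    have : Fact p.Prime := ⟨hp⟩
    exact add_pow_char a b p
  { add_assoc := fun x y z => ext' (by simp only [add_fst]; ring) (by
      simp only [add_fst, add_snd]
      have := wP_assoc hp x.fst y.fst z.fst
      linear_combination (-L) * this)
    zero_add := fun x => ext' (by simp only [add_fst, zero_fst, zero_add]) (by
      simp only [add_snd, zero_fst, zero_snd, wP_zero_left]; ring)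
    add_zero := fun x => ext' (by simp only [add_fst, zero_fst, add_zero]) (by
      simp only [add_snd, zero_fst, zero_snd, wP_zero_right]; ring)
    add_comm := fun x y => ext' (by simp only [add_fst]; ring) (by
      simp only [add_snd, wP_comm hp x.fst y.fst]; ring)
    neg_add_cancel := fun x => ext' (by simp only [add_fst, neg_fst, zero_fst]; ring) (by
      simp only [add_snd, neg_fst, neg_snd, zero_snd, wP_comm hp (-x.fst) x.fst]; ring)
    mul_assoc := fun x y z => ext' (by simp only [mul_fst]; ring) (by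
      simp only [mul_fst, mul_snd]; ring)
    one_mul := fun x => ext' (by simp only [mul_fst, one_fst, one_mul]) (by
      simp only [mul_snd, one_fst, one_snd]; ring)
    mul_one := fun x => ext' (by simp only [mul_fst, one_fst, mul_one]) (by
      simp only [mul_snd, one_fst, one_snd]; ring)
    mul_comm := fun x y => ext' (by simp only [mul_fst]; ring) (by
      simp only [mul_snd]; ring)
    left_distrib := fun x y z => ext' (by simp only [mul_fst, add_fst]; ring) (by
      simp only [mul_fst, mul_snd, add_fst, add_snd, wP_mul, hpow]; ring)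
    right_distrib := fun x y z => ext' (by simp only [mul_fst, add_fst]; ring) (by
      have h1 : wP p (x.fst * z.fst) (y.fst * z.fst) = z.fst ^ p * wP p x.fst y.fst := by
        rw [mul_comm x.fst, mul_comm y.fst, wP_mul]
      simp only [mul_fst, mul_snd, add_fst, add_snd, h1, hpow]; ring)
    zero_mul := fun x => ext' (by simp only [mul_fst, zero_fst, zero_mul]) (by
      simp only [mul_snd, zero_fst, zero_snd, zero_pow hp.ne_zero]; ring)
    mul_zero := fun x => ext' (by simp only [mul_fst, zero_fst, mul_zero]) (by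
      simp only [mul_snd, zero_fst, zero_snd, zero_pow hp.ne_zero]; ring)
    nsmul := nsmulRec
    zsmul := zsmulRec }

end WE
-- END W1b

end Pool.Agent.Lib.MP_6a3dac_ag.NU
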