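import Mathlib

/-!
# Iterated blow-ups of points: definitions
-/

set_option autoImplicit false

namespace Pool.Agent.Lib.MP_6a3dac_ag.NU

open CategoryTheory Limits AlgebraicGeometry IsLocalRing IsDiscreteValuationRing

section Algebra

/-- The subring generated by the image of `A` and by the quotients `g / f` of elements of the
maximal ideal of `A` by `f`. -/
def blowSub {A A' : Type} [CommRing A] [CommRing A'] [IsLocalRing A] (φ : A →+* A') (f : A) :
    Subring A' :=
  Subring.closure (Set.range φ ∪ {x | ∃ g ∈ maximalIdeal A, φ f * x = φ g})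

/-- `A'` is a local ring of the blow-up of the closed point of `Spec A`. -/
structure IsQT {A A' : Type} [CommRing A] [CommRing A'] [IsLocalRing A] (φ : A →+* A') : Prop where
  ex : ∃ f ∈ maximalIdeal A, φ f ≠ 0 ∧ (∀ g ∈ maximalIdeal A, φ f ∣ φ g) ∧
    ∀ z : A', ∃ p ∈ blowSub φ f, ∃ q ∈ blowSub φ f, IsUnit q ∧ q * z = p

variable {D V : Type} [CommRing D] [CommRing V]

/-- The elements of `A` which become units under `α` are units of `A`. -/
def LocAt (α : D →+* V) (A : Subring D) : Prop :=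
  ∀ a ∈ A, IsUnit (α a) → ∃ b ∈ A, a * b = 1

/-- The subring generated by `A` and the quotients `g / f`, `g` in the maximal ideal of `A`. -/
def blw (α : D →+* V) (A : Subring D) (f : D) : Subring D :=
  Subring.closure ((A : Set D) ∪ {x | f * x ∈ A ∧ ¬ IsUnit (α (f * x))})

/-- `A'` is a local ring of the blow-up of the closed point of `Spec A`, inside `D`. -/
def StepRel (α : D →+* V) (A A' : Subring D) : Prop :=
  A ≤ A' ∧ ∃ f ∈ A, f ≠ 0 ∧ ¬ IsUnit (α f) ∧ (∀ g ∈ A, ¬ IsUnit (α g) → ∃ h ∈ A', f * h = g) ∧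
    ∀ z ∈ A', ∃ p ∈ blw α A f, ∃ q ∈ blw α A f, IsUnit (α q) ∧ q * z = p

/-- A sequence of blow-ups of closed points along the arc `α`, such that the smallest positive
valuation `w` of an element stays the same. -/
structure Chain [IsDomain V] [IsDiscreteValuationRing V] (α : D →+* V) (A : ℕ → Subring D) (ℓ : ℕ)
    (t : D) (w : ℕ) : Prop where
  loc : ∀ i ≤ ℓ, LocAt α (A i)
  mono : ∀ i < ℓ, A i ≤ A (i + 1)
  wpos : 0 < w
  tmem : t ∈ A 0
  tval : addVal V (α t) = w
  low : ∀ i ≤ ℓ, ∀ a ∈ A i, ¬ IsUnit (α a) → (w : ℕ∞) ≤ addVal V (α a)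
  div : ∀ i < ℓ, ∀ a ∈ A i, ¬ IsUnit (α a) → ∃ b ∈ A (i + 1), t * b = a
  gen : ∀ i < ℓ, ∀ z ∈ A (i + 1), ∃ p ∈ blw α (A i) t, ∃ q ∈ blw α (A i) t,
    IsUnit (α q) ∧ q * z = p

/-- The residue fields stay the same. -/
def Res (α : D →+* V) (A : ℕ → Subring D) (ℓ : ℕ) : Prop :=
  ∀ i ≤ ℓ, ∀ a ∈ A i, ∃ b ∈ A 0, ¬ IsUnit (α (a - b))

/-- A presentation of a ring with smooth generic fibre. -/
structure Pres (R : Type) [CommRing R] where
  /-- the number of generators -/
  N : ℕ
  /-- the presentation -/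
  π : MvPolynomial (Fin N) ℤ →+* R
  surj : Function.Surjective π
  /-- the denominator -/
  a : ℕ
  a_ne : a ≠ 0
  /-- the relations -/
  γ : Fin N → MvPolynomial (Fin N) ℤ
  γ_mem : ∀ l, π (γ l) = 0
  rel : ∀ g, π g = 0 → (a : MvPolynomial (Fin N) ℤ) * g - ∑ l, MvPolynomial.pderiv l g * γ l ∈
    (RingHom.ker π) ^ 2

/-- The matrix of the partial derivatives of the relations. -/
noncomputable def Pres.M {R : Type} [CommRing R] (P : Pres R) : Matrix (Fin P.N) (Fin P.N) R :=
  Matrix.of fun l k => P.π (MvPolynomial.pderiv l (P.γ k))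

/-- The codimension. -/
noncomputable def Pres.c {R : Type} [CommRing R] [IsDomain R] (P : Pres R) : ℕ :=
  (P.M.map (algebraMap R (FractionRing R))).rank

end Algebra

section Scheme

/-- The largest open subscheme which is regular. -/
def regOpen (Y : Scheme.{0}) : Y.Opens :=
  sSup {U | ∀ y ∈ U, IsRegularLocalRing (Y.presheaf.stalk y)}

/-- The point `y` has characteristic zero. -/
def CharZ (Y : Scheme.{0}) (y : Y) : Prop :=
  ∀ n : ℕ, n ≠ 0 → IsUnit ((n : ℕ) : Y.presheaf.stalk y)

/-- The points with at most `i` elements in the residue field outside the regular open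
subscheme. -/
def badSet (Y : Scheme.{0}) (i : ℕ) : Set Y :=
  {y | y ∉ regOpen Y ∧ Finite (Y.residueField y) ∧ Nat.card (Y.residueField y) ≤ i}

/-- An integral scheme of finite type over `ℤ`, dominating `ℤ`, with smooth generic fibre. -/
structure Nice (Y : Scheme.{0}) : Prop where
  int : IsIntegral Y
  qc : CompactSpace Y
  ft : ∀ U : Y.affineOpens, Algebra.FiniteType ℤ Γ(Y, U)
  cz : ∃ y : Y, CharZ Y y
  sm : ∀ y : Y, CharZ Y y → Algebra.FormallySmooth ℤ (Y.presheaf.stalk y)

/-- `β` is the blow-up of the set `T` of closed points. -/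
structure IsStep {Y' Y : Scheme.{0}} (β : Y' ⟶ Y) (T : Set Y) : Prop where
  proper : IsProper β
  int : IsIntegral Y'
  iso : ∀ U : Y.Opens, Disjoint (U : Set Y) T → IsIso (β ∣_ U)
  qt : ∀ y' : Y', β y' ∈ T → IsQT (β.stalkMap y').hom

/-- The tower of blow-ups. -/
structure Tower where
  /-- the schemes -/
  Z : ℕ → Scheme.{0}
  /-- the blow-ups -/
  β : ∀ i, Z (i + 1) ⟶ Z i
  nice : ∀ i, Nice (Z i)
  step : ∀ i, IsStep (β i) (badSet (Z i) i)

/-- The morphism down the tower. -/
noncomputable def Tower.dn (T : Tower) {i j : ℕ} (h : i ≤ j) : T.Z j ⟶ T.Z i :=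
  (Functor.ofOpSequence T.β).map (homOfLE h).op

/-- The local degree of a discrete valuation ring with finite residue field: the valuation of the
number of elements of the residue field. -/
noncomputable def deg (V : Type) [CommRing V] [IsDomain V] [IsDiscreteValuationRing V] : ℕ∞ :=
  addVal V ((Nat.card (ResidueField V) : ℕ) : V)

end Scheme

end Pool.Agent.Lib.MP_6a3dac_ag.NU
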