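import Pool.Agent.Lib.MP_6a3dac_ag.Mg.G070
import Pool.Agent.Lib.MP_6a3dac_ag.Mg.G047
import Pool.Agent.Lib.MP_6a3dac_ag.Mg.G050

/-!
# NU: openness of the regular locus near closed points
-/

set_option autoImplicit false

namespace Pool.Agent.Lib.MP_6a3dac_ag.NU

open IsLocalRing MvPolynomial

-- BEGIN OP1a
/-- A `p`-derivation of the polynomial ring. -/
theorem exists_pder (N p : ℕ) (hp : p.Prime) :
    ∃ δ : MvPolynomial (Fin N) ℤ → MvPolynomial (Fin N) ℤ,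
      (∀ g h, ∃ z, δ (g + h) = δ g + δ h + g * z) ∧
      (∀ a g, ∃ z w, δ (a * g) = a ^ p * δ g + p * z + g * w) ∧
      δ p = 1 - (p : MvPolynomial (Fin N) ℤ) ^ (p - 1) := by
  have : Fact p.Prime := ⟨hp⟩
  have hp0 : (p : MvPolynomial (Fin N) ℤ) ≠ 0 := Nat.cast_ne_zero.mpr hp.ne_zero
  have h : ∀ g : MvPolynomial (Fin N) ℤ, ∃ d, expand p g = g ^ p + p * d := by
    intro g
    have h1 : C ((p : ℕ) : ℤ) ∣ expand p g - g ^ p := by
      rw [C_dvd_iff_zmod, map_sub, map_pow, map_expand, expand_zmod, sub_self]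
    obtain ⟨d, hd⟩ := h1
    exact ⟨d, by rw [map_natCast] at hd; linear_combination hd⟩
  choose δ hδ using h
  have hpp : p = p - 1 + 1 := (Nat.succ_pred_prime hp).symm
  refine ⟨δ, fun g h => ?_, fun a g => ⟨δ a * δ g, δ a * g ^ (p - 1), ?_⟩, ?_⟩
  · obtain ⟨r, hr⟩ := exists_add_pow_prime_eq hp g h
    refine ⟨-(h * r), mul_left_cancel₀ hp0 ?_⟩
    have := hδ (g + h)
    rw [map_add, hδ g, hδ h] at this
    linear_combination -this - hr
  · apply mul_left_cancel₀ hp0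
    have := hδ (a * g)
    rw [map_mul, hδ a, hδ g, mul_pow] at this
    have h2 : g ^ p = g * g ^ (p - 1) := by rw [← pow_succ', ← hpp]
    linear_combination -this + p * δ a * h2
  · apply mul_left_cancel₀ hp0
    have := hδ p
    rw [map_natCast] at this
    have h2 : (p : MvPolynomial (Fin N) ℤ) ^ p = p * (p : MvPolynomial (Fin N) ℤ) ^ (p - 1) := by
      rw [← pow_succ', ← hpp]
    linear_combination -this - h2
-- END OP1a

/-- The vector `Λ g = (δ g, (∂_l g) ^ p)`. -/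
noncomputable def lam {N : ℕ} (p : ℕ) (δ : MvPolynomial (Fin N) ℤ → MvPolynomial (Fin N) ℤ)
    (g : MvPolynomial (Fin N) ℤ) : Option (Fin N) → MvPolynomial (Fin N) ℤ
  | none => δ g
  | some l => (pderiv l g) ^ p

-- BEGIN OP1b
/-- `Λ` is additive and semilinear modulo a prime containing `p`, and kills its square. -/
theorem lam_props {N p : ℕ} (hp : p.Prime)
    (δ : MvPolynomial (Fin N) ℤ → MvPolynomial (Fin N) ℤ)
    (h1 : ∀ g h, ∃ z, δ (g + h) = δ g + δ h + g * z)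
    (h2 : ∀ a g, ∃ z w, δ (a * g) = a ^ p * δ g + p * z + g * w)
    (𝔔 : Ideal (MvPolynomial (Fin N) ℤ)) [𝔔.IsPrime]
    (hp𝔔 : (p : MvPolynomial (Fin N) ℤ) ∈ 𝔔) :
    (∀ g ∈ 𝔔, ∀ h ∈ 𝔔, ∀ o, lam p δ (g + h) o - (lam p δ g o + lam p δ h o) ∈ 𝔔) ∧
    (∀ a, ∀ g ∈ 𝔔, ∀ o, lam p δ (a * g) o - a ^ p * lam p δ g o ∈ 𝔔) ∧
    ∀ x ∈ 𝔔 ^ 2, ∀ o, lam p δ x o ∈ 𝔔 := by
  have A : ∀ g ∈ 𝔔, ∀ h ∈ 𝔔, ∀ o,
      lam p δ (g + h) o - (lam p δ g o + lam p δ h o) ∈ 𝔔 := by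
    rintro g hg h - (_ | l)
    · obtain ⟨z, hz⟩ := h1 g h
      have : lam p δ (g + h) none - (lam p δ g none + lam p δ h none) = z * g := by
        simp only [lam, hz]; ring
      rw [this]
      exact 𝔔.mul_mem_left _ hg
    · obtain ⟨r, hr⟩ := exists_add_pow_prime_eq hp (pderiv l g) (pderiv l h)
      have : lam p δ (g + h) (some l) - (lam p δ g (some l) + lam p δ h (some l)) =
          pderiv l g * pderiv l h * r * p := by
        simp only [lam, map_add, hr]; ring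
      rw [this]
      exact 𝔔.mul_mem_left _ hp𝔔
  have B : ∀ a, ∀ g ∈ 𝔔, ∀ o, lam p δ (a * g) o - a ^ p * lam p δ g o ∈ 𝔔 := by
    rintro a g hg (_ | l)
    · obtain ⟨z, w, hz⟩ := h2 a g
      have : lam p δ (a * g) none - a ^ p * lam p δ g none = z * p + w * g := by
        simp only [lam, hz]; ring
      rw [this]
      exact add_mem (𝔔.mul_mem_left _ hp𝔔) (𝔔.mul_mem_left _ hg)
    · obtain ⟨r, hr⟩ := exists_add_pow_prime_eq hp (a * pderiv l g) (g * pderiv l a)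
      have : lam p δ (a * g) (some l) - a ^ p * lam p δ g (some l) =
          (g * pderiv l a) ^ p + a * pderiv l g * (g * pderiv l a) * r * p := by
        simp only [lam, pderiv_mul]
        rw [show pderiv l a * g + a * pderiv l g = a * pderiv l g + g * pderiv l a by ring, hr,
          mul_pow a]
        ring
      rw [this]
      exact add_mem (Ideal.pow_mem_of_mem _ (𝔔.mul_mem_right _ hg) _ hp.pos)
        (𝔔.mul_mem_left _ hp𝔔)
  refine ⟨A, B, fun x hx o => ?_⟩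
  rw [pow_two] at hx
  refine (Submodule.mul_induction_on hx (C := fun x => x ∈ 𝔔 ∧ lam p δ x o ∈ 𝔔)
    (fun a ha g hg => ⟨𝔔.mul_mem_left _ hg, ?_⟩) fun g h hg hh => ⟨add_mem hg.1 hh.1, ?_⟩).2
  · have := add_mem (B a g hg o) (𝔔.mul_mem_right (lam p δ g o)
      (Ideal.pow_mem_of_mem _ ha _ hp.pos))
    rwa [sub_add_cancel] at this
  · have := add_mem (A g hg.1 h hh.1 o) (add_mem hg.2 hh.2)
    rwa [sub_add_cancel] at this
-- END OP1b

-- BEGIN OP1c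
/-- A nonzero minor gives independence modulo the square of the prime. -/
theorem independent_of_minor {N p : ℕ} (hp : p.Prime)
    (δ : MvPolynomial (Fin N) ℤ → MvPolynomial (Fin N) ℤ)
    (h1 : ∀ g h, ∃ z, δ (g + h) = δ g + δ h + g * z)
    (h2 : ∀ a g, ∃ z w, δ (a * g) = a ^ p * δ g + p * z + g * w)
    (𝔔 : Ideal (MvPolynomial (Fin N) ℤ)) [𝔔.IsPrime]
    (hp𝔔 : (p : MvPolynomial (Fin N) ℤ) ∈ 𝔔) {c : ℕ} (g : Fin c → MvPolynomial (Fin N) ℤ)
    (hg : ∀ k, g k ∈ 𝔔) (τ : Fin c → Option (Fin N))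
    (hdet : (Matrix.of fun k i : Fin c => lam p δ (g k) (τ i)).det ∉ 𝔔)
    (s : MvPolynomial (Fin N) ℤ) (hs : s ∉ 𝔔) (b : Fin c → MvPolynomial (Fin N) ℤ)
    (hb : s * ∑ k, b k * g k ∈ 𝔔 ^ 2) (k : Fin c) : b k ∈ 𝔔 := by
  obtain ⟨A, B, Q⟩ := lam_props hp δ h1 h2 𝔔 hp𝔔
  have S : ∀ (T : Finset (Fin c)) o, lam p δ (∑ k ∈ T, s * b k * g k) o -
      ∑ k ∈ T, (s * b k) ^ p * lam p δ (g k) o ∈ 𝔔 := by
    intro T o
    induction T using Finset.induction_on with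
    | empty => simpa using Q 0 (zero_mem _) o
    | insert j T hj ih =>
      rw [Finset.sum_insert hj, Finset.sum_insert hj]
      have := add_mem (add_mem (A _ (𝔔.mul_mem_left (s * b j) (hg j)) (∑ k ∈ T, s * b k * g k)
        (sum_mem fun k _ => 𝔔.mul_mem_left (s * b k) (hg k)) o) (B (s * b j) _ (hg j) o)) ih
      convert this using 1
      ring
  have V : ∀ i, ∑ k, (s * b k) ^ p * lam p δ (g k) (τ i) ∈ 𝔔 := by
    intro i
    have hx := Q (∑ k, s * b k * g k) (by simpa [Finset.mul_sum, mul_assoc] using hb) (τ i)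
    have := sub_mem hx (S Finset.univ (τ i))
    rwa [sub_sub_cancel] at this
  set M := Matrix.of fun k i : Fin c => lam p δ (g k) (τ i) with hM
  have D : (s * b k) ^ p * M.det = ∑ i, (∑ l, (s * b l) ^ p * M l i) * M.adjugate i k := by
    calc (s * b k) ^ p * M.det = ∑ l, (s * b l) ^ p * (M * M.adjugate) l k := by
          rw [Matrix.mul_adjugate]
          simp [Matrix.smul_apply, Matrix.one_apply]
      _ = _ := by
          simp only [Matrix.mul_apply, Finset.mul_sum, Finset.sum_mul]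
          rw [Finset.sum_comm]
          exact Finset.sum_congr rfl fun i _ => Finset.sum_congr rfl fun l _ => by ring
  have E : (s * b k) ^ p * M.det ∈ 𝔔 := by
    rw [D]
    exact sum_mem fun i _ => 𝔔.mul_mem_right _ (V i)
  have := Ideal.IsPrime.mem_of_pow_mem ‹_› _
    ((Ideal.IsPrime.mem_or_mem ‹_› E).resolve_right hdet)
  exact (Ideal.IsPrime.mem_or_mem ‹_› this).resolve_left hs
-- END OP1c

-- BEGIN OP1d
theorem op1d_taylor {N p : ℕ} [Fact p.Prime] (𝔫 : Ideal (MvPolynomial (Fin N) (ZMod p))) (f : ℕ)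
    (he : ∀ i, (X i) ^ p ^ f - X i ∈ 𝔫) (g : MvPolynomial (Fin N) (ZMod p)) :
    g ^ p ^ f - g - ∑ i, pderiv i g * ((X i) ^ p ^ f - X i) ∈ 𝔫 ^ 2 := by
  induction g using MvPolynomial.induction_on with
  | C a => simp [← C_pow, ZMod.pow_card_pow]
  | add g h ihg ihh =>
    convert add_mem ihg ihh using 1
    simp only [add_pow_char_pow, map_add, add_mul, Finset.sum_add_distrib]
    ring
  | mul_X g j ih =>
    have hD : ∑ i, pderiv i g * ((X i) ^ p ^ f - X i) ∈ 𝔫 :=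
      sum_mem fun i _ => 𝔫.mul_mem_left _ (he i)
    have h1 : g ^ p ^ f - g ∈ 𝔫 := by
      have := add_mem (Ideal.pow_le_self two_ne_zero ih) hD
      rwa [sub_add_cancel] at this
    convert add_mem (Ideal.mul_mem_right (X j) _ ih)
      (by rw [pow_two]; exact Ideal.mul_mem_mul h1 (he j) :
        (g ^ p ^ f - g) * ((X j) ^ p ^ f - X j) ∈ 𝔫 ^ 2) using 1
    have hs : ∑ i, pderiv i (g * X j) * ((X i) ^ p ^ f - X i) =
        (∑ i, pderiv i g * ((X i) ^ p ^ f - X i)) * X j + g * ((X j) ^ p ^ f - X j) := by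
      simp only [Derivation.leibniz, smul_eq_mul, pderiv_X, add_mul, Finset.sum_add_distrib,
        Finset.sum_mul]
      rw [add_comm]
      congr 1
      · exact Finset.sum_congr rfl fun i _ => by ring
      · simp [Pi.single_apply, Finset.sum_ite_eq]
    rw [hs, mul_pow]
    ring

/-- The Jacobian criterion at a closed point over a finite prime field: the `|κ|`-th power map is
`g ↦ g (x + e)`, `e_i ∈ 𝔫`. -/
theorem mem_sq_of_pderiv {N p : ℕ} (hp : p.Prime) (𝔫 : Ideal (MvPolynomial (Fin N) (ZMod p)))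
    (h𝔫 : 𝔫.IsMaximal) (g : MvPolynomial (Fin N) (ZMod p)) (hg : g ∈ 𝔫)
    (hd : ∀ l, pderiv l g ∈ 𝔫) : g ∈ 𝔫 ^ 2 := by
  have : Fact p.Prime := ⟨hp⟩
  let _ := Ideal.Quotient.field 𝔫
  have : Module.Finite (ZMod p) (MvPolynomial (Fin N) (ZMod p) ⧸ 𝔫) :=
    finite_of_finite_type_of_isJacobsonRing _ _
  have : Finite (MvPolynomial (Fin N) (ZMod p) ⧸ 𝔫) := Module.finite_of_finite (ZMod p)
  let _ := Fintype.ofFinite (MvPolynomial (Fin N) (ZMod p) ⧸ 𝔫)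
  have : CharP (MvPolynomial (Fin N) (ZMod p) ⧸ 𝔫) p :=
    charP_of_injective_algebraMap (algebraMap (ZMod p) _).injective p
  obtain ⟨f, -, hf⟩ := FiniteField.card (MvPolynomial (Fin N) (ZMod p) ⧸ 𝔫) p
  have he : ∀ i, (X i) ^ p ^ (f : ℕ) - X i ∈ 𝔫 := fun i => by
    rw [← Ideal.Quotient.eq_zero_iff_mem, map_sub, map_pow, ← hf, FiniteField.pow_card, sub_self]
  have h := op1d_taylor 𝔫 f he g
  have h2 : g ^ p ^ (f : ℕ) ∈ 𝔫 ^ 2 :=
    Ideal.pow_le_pow_right (hf ▸ Fintype.one_lt_card) (Ideal.pow_mem_pow hg _)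
  have h3 : ∑ i, pderiv i g * ((X i) ^ p ^ (f : ℕ) - X i) ∈ 𝔫 ^ 2 :=
    sum_mem fun i _ => by rw [pow_two]; exact Ideal.mul_mem_mul (hd i) (he i)
  have := sub_mem (sub_mem h2 h3) h
  convert this using 1
  ring
-- END OP1d

-- BEGIN OP1e
/-- `Λ` is injective on the cotangent space at a closed point. -/
theorem mem_sq_of_lam {N p : ℕ} (hp : p.Prime)
    (δ : MvPolynomial (Fin N) ℤ → MvPolynomial (Fin N) ℤ)
    (h1 : ∀ g h, ∃ z, δ (g + h) = δ g + δ h + g * z)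
    (h2 : ∀ a g, ∃ z w, δ (a * g) = a ^ p * δ g + p * z + g * w)
    (h3 : δ p = 1 - (p : MvPolynomial (Fin N) ℤ) ^ (p - 1))
    (𝔫 : Ideal (MvPolynomial (Fin N) ℤ)) [𝔫.IsMaximal]
    (hp𝔫 : (p : MvPolynomial (Fin N) ℤ) ∈ 𝔫) (g : MvPolynomial (Fin N) ℤ) (hg : g ∈ 𝔫)
    (hl : ∀ o, lam p δ g o ∈ 𝔫) : g ∈ 𝔫 ^ 2 := by
  have : Fact p.Prime := ⟨hp⟩
  set φ : MvPolynomial (Fin N) ℤ →+* MvPolynomial (Fin N) (ZMod p) :=
    MvPolynomial.map (Int.castRingHom (ZMod p)) with hφ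
  have hφs : Function.Surjective φ :=
    MvPolynomial.map_surjective _ (ZMod.ringHom_surjective _)
  have hker : ∀ x, φ x = 0 → ∃ u, x = p * u := fun x hx => by
    have := (MvPolynomial.C_dvd_iff_zmod p x).2 hx
    obtain ⟨u, hu⟩ := this
    exact ⟨u, by rw [hu]; simp⟩
  have hk : RingHom.ker φ ≤ 𝔫 := fun x hx => by
    obtain ⟨u, rfl⟩ := hker x hx
    exact 𝔫.mul_mem_right _ hp𝔫
  have hmax : (𝔫.map φ).IsMaximal := by
    rcases Ideal.map_eq_top_or_isMaximal_of_surjective φ hφs ‹𝔫.IsMaximal› with h | h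
    · exfalso
      have := Ideal.comap_map_of_surjective' φ hφs 𝔫
      rw [h, Ideal.comap_top, sup_eq_left.2 hk] at this
      exact Ideal.IsMaximal.ne_top ‹_› this.symm
    · exact h
  have hsq : φ g ∈ (𝔫.map φ) ^ 2 := by
    refine mem_sq_of_pderiv hp _ hmax _ (Ideal.mem_map_of_mem _ hg) fun l => ?_
    rw [hφ, MvPolynomial.pderiv_map]
    exact Ideal.mem_map_of_mem _ ((Ideal.IsMaximal.isPrime ‹_›).mem_of_pow_mem p (hl (some l)))
  rw [← Ideal.map_pow, Ideal.mem_map_iff_of_surjective φ hφs] at hsq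
  obtain ⟨w, hw, hwg⟩ := hsq
  obtain ⟨u, hu⟩ := hker (g - w) (by rw [map_sub, hwg, sub_self])
  obtain ⟨la, ls, lq⟩ := lam_props hp δ h1 h2 𝔫 hp𝔫
  have hg' : g = u * p + w := by rw [mul_comm, ← hu]; ring
  have e1 := la (u * p) (𝔫.mul_mem_left _ hp𝔫) w (Ideal.pow_le_self two_ne_zero hw) none
  have e2 := ls u p hp𝔫 none
  have e3 := lq w hw none
  have e4 := hl none
  rw [← hg'] at e1
  have e5 : u ^ p * (1 - (p : MvPolynomial (Fin N) ℤ) ^ (p - 1)) ∈ 𝔫 := by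
    have := sub_mem (sub_mem (sub_mem e4 e1) e2) e3
    simp only [lam, h3] at this ⊢
    convert this using 1
    ring
  have e6 : u ^ p ∈ 𝔫 := by
    have e7 : u ^ p * (p : MvPolynomial (Fin N) ℤ) ^ (p - 1) ∈ 𝔫 :=
      𝔫.mul_mem_left _ (Ideal.pow_mem_of_mem _ hp𝔫 _ (Nat.sub_pos_of_lt hp.one_lt))
    convert add_mem e5 e7 using 1
    ring
  have e8 : u * p ∈ 𝔫 ^ 2 := by
    rw [pow_two]
    exact Ideal.mul_mem_mul ((Ideal.IsMaximal.isPrime ‹_›).mem_of_pow_mem p e6) hp𝔫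
  exact hg' ▸ add_mem e8 hw
-- END OP1e

-- BEGIN OP1f
theorem op1f_minor {κ ι : Type} [Field κ] [Fintype ι] {c : ℕ} (v : Fin c → ι → κ)
    (hv : LinearIndependent κ v) :
    ∃ τ : Fin c → ι, (Matrix.of fun k i : Fin c => v k (τ i)).det ≠ 0 := by
  classical
  have hr : (Matrix.of v).rank = c := by
    have := LinearIndependent.rank_matrix (M := Matrix.of v) hv
    rwa [Fintype.card_fin] at this
  obtain ⟨K, a, ha, hsp, hli⟩ := exists_linearIndependent' κ (Matrix.of v).col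
  have : Fintype K := Fintype.ofInjective a ha
  have hK : Fintype.card K = c := by
    rw [linearIndependent_iff_card_eq_finrank_span.1 hli, Set.finrank, hsp,
      ← Matrix.rank_eq_finrank_span_cols, hr]
  let e : Fin c ≃ K := (Fintype.equivFinOfCardEq hK).symm
  refine ⟨a ∘ e, ?_⟩
  have h := (Matrix.linearIndependent_cols_iff_isUnit
    (A := Matrix.of fun k i : Fin c => v k ((a ∘ e) i))).1 (hli.comp e e.injective)
  exact ((Matrix.isUnit_iff_isUnit_det _).1 h).ne_zero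

theorem op1f_frob {N p : ℕ} (hp : p.Prime) (𝔫 : Ideal (MvPolynomial (Fin N) ℤ)) [𝔫.IsMaximal]
    (hp𝔫 : (p : MvPolynomial (Fin N) ℤ) ∈ 𝔫) (y : MvPolynomial (Fin N) ℤ ⧸ 𝔫) :
    ∃ b, Ideal.Quotient.mk 𝔫 b ^ p = y := by
  have : Fact p.Prime := ⟨hp⟩
  let _ := Ideal.Quotient.field 𝔫
  have : CharP (MvPolynomial (Fin N) ℤ ⧸ 𝔫) p := by
    refine (CharP.charP_iff_prime_eq_zero hp).2 ?_
    rw [← map_natCast (Ideal.Quotient.mk 𝔫), Ideal.Quotient.eq_zero_iff_mem]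
    exact hp𝔫
  let _ : Algebra (ZMod p) (MvPolynomial (Fin N) ℤ ⧸ 𝔫) := ZMod.algebra _ p
  have : Algebra.FiniteType (ZMod p) (MvPolynomial (Fin N) ℤ ⧸ 𝔫) :=
    Algebra.FiniteType.of_restrictScalars_finiteType ℤ _ _
  have : Module.Finite (ZMod p) (MvPolynomial (Fin N) ℤ ⧸ 𝔫) :=
    finite_of_finite_type_of_isJacobsonRing _ _
  have : Finite (MvPolynomial (Fin N) ℤ ⧸ 𝔫) := Module.finite_of_finite (ZMod p)
  obtain ⟨x, hx⟩ := (Finite.injective_iff_surjective.1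
    (frobenius_inj (MvPolynomial (Fin N) ℤ ⧸ 𝔫) p)) y
  obtain ⟨b, rfl⟩ := Ideal.Quotient.mk_surjective x
  exact ⟨b, hx⟩

/-- Independent elements at a closed point have a nonzero minor. -/
theorem exists_minor_of_independent {N p : ℕ} (hp : p.Prime)
    (δ : MvPolynomial (Fin N) ℤ → MvPolynomial (Fin N) ℤ)
    (h1 : ∀ g h, ∃ z, δ (g + h) = δ g + δ h + g * z)
    (h2 : ∀ a g, ∃ z w, δ (a * g) = a ^ p * δ g + p * z + g * w)
    (h3 : δ p = 1 - (p : MvPolynomial (Fin N) ℤ) ^ (p - 1))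
    (𝔫 : Ideal (MvPolynomial (Fin N) ℤ)) [𝔫.IsMaximal]
    (hp𝔫 : (p : MvPolynomial (Fin N) ℤ) ∈ 𝔫) {c : ℕ} (g : Fin c → MvPolynomial (Fin N) ℤ)
    (hg : ∀ k, g k ∈ 𝔫)
    (hind : ∀ b : Fin c → MvPolynomial (Fin N) ℤ, ∑ k, b k * g k ∈ 𝔫 ^ 2 → ∀ k, b k ∈ 𝔫) :
    ∃ τ : Fin c → Option (Fin N),
      (Matrix.of fun k i : Fin c => lam p δ (g k) (τ i)).det ∉ 𝔫 := by
  let _ := Ideal.Quotient.field 𝔫
  obtain ⟨la, ls, lq⟩ := lam_props hp δ h1 h2 𝔫 hp𝔫
  have hz : ∀ o, lam p δ 0 o ∈ 𝔫 := lq 0 (zero_mem _)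
  have hsum : ∀ (b : Fin c → MvPolynomial (Fin N) ℤ) (s : Finset (Fin c)) o,
      lam p δ (∑ k ∈ s, b k * g k) o - ∑ k ∈ s, b k ^ p * lam p δ (g k) o ∈ 𝔫 := by
    intro b s o
    induction s using Finset.induction_on with
    | empty => simpa using hz o
    | insert k s hk ih =>
      rw [Finset.sum_insert hk, Finset.sum_insert hk]
      convert add_mem (add_mem (la _ (𝔫.mul_mem_left (b k) (hg k)) _
        (sum_mem fun i _ => 𝔫.mul_mem_left (b i) (hg i)) o) (ls (b k) _ (hg k) o)) ih using 1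
      ring
  obtain ⟨τ, hτ⟩ := op1f_minor (fun k o => Ideal.Quotient.mk 𝔫 (lam p δ (g k) o)) (by
    rw [Fintype.linearIndependent_iff]
    intro β hβ
    choose b hb using fun k => op1f_frob hp 𝔫 hp𝔫 (β k)
    have h4 : ∀ o, lam p δ (∑ k, b k * g k) o ∈ 𝔫 := fun o => by
      have h5 : ∑ k, b k ^ p * lam p δ (g k) o ∈ 𝔫 := by
        rw [← Ideal.Quotient.eq_zero_iff_mem, map_sum]
        have := congrFun hβ o
        simpa [← hb, Finset.sum_apply] using this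
      have := add_mem (hsum b Finset.univ o) h5
      rwa [sub_add_cancel] at this
    have h6 := hind b (mem_sq_of_lam hp δ h1 h2 h3 𝔫 hp𝔫 _
      (sum_mem fun i _ => 𝔫.mul_mem_left (b i) (hg i)) h4)
    intro k
    rw [← hb k, Ideal.Quotient.eq_zero_iff_mem.2 (h6 k), zero_pow hp.ne_zero])
  refine ⟨τ, fun h => hτ ?_⟩
  rw [← Ideal.Quotient.eq_zero_iff_mem, RingHom.map_det] at h
  exact h
-- END OP1f

-- BEGIN OP1g
/-- Equations at a regular point.

PROOF.  `B = Localization.AtPrime 𝔫` is regular local.  `exists_gens_of_regular_quotient` with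
`J = 𝔓.map _` gives `s : Fin c → B` generating `J`, independent modulo `𝔪_B²`.  `s k = g k / u k` with
`g k ∈ 𝔓`, `u k ∉ 𝔫` (`IsLocalization.mem_map_algebraMap_iff`).  `J` is generated by the `g k / 1`; `𝔓` is
finitely generated, so there is `f ∉ 𝔫` with `f * x ∈ span (range g)` for the generators `x` of `𝔓`,
so for all `x ∈ 𝔓`.  If `∑ b_k g_k ∈ 𝔫 ^ 2` then in `B` `∑ (b_k u_k) s_k ∈ 𝔪_B²`, so `b_k u_k ∈ 𝔪_B`,
`b_k ∈ 𝔫`. -/
theorem exists_local_gens {N : ℕ} (𝔓 𝔫 : Ideal (MvPolynomial (Fin N) ℤ)) [𝔫.IsMaximal]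
    (hreg : IsRegularLocalRing (Localization.AtPrime 𝔫 ⧸
      𝔓.map (algebraMap (MvPolynomial (Fin N) ℤ) (Localization.AtPrime 𝔫)))) :
    ∃ (c : ℕ) (g : Fin c → MvPolynomial (Fin N) ℤ) (f : MvPolynomial (Fin N) ℤ), f ∉ 𝔫 ∧
      (∀ k, g k ∈ 𝔓) ∧ (∀ x ∈ 𝔓, f * x ∈ Ideal.span (Set.range g)) ∧
      ∀ b : Fin c → MvPolynomial (Fin N) ℤ, ∑ k, b k * g k ∈ 𝔫 ^ 2 → ∀ k, b k ∈ 𝔫 := by
  classical
  set S := MvPolynomial (Fin N) ℤ with hS
  set B := Localization.AtPrime 𝔫 with hB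
  have hBreg : IsRegularLocalRing B := IsRegularRing.isRegularLocalRing_localization 𝔫
  have hinj : Function.Injective (algebraMap S B) :=
    IsLocalization.injective B 𝔫.primeCompl_le_nonZeroDivisors
  obtain ⟨c, s, hs, -, hind⟩ := exists_gens_of_regular_quotient hBreg _ hreg
  have hsm : ∀ k, ∃ (g : 𝔓) (u : 𝔫.primeCompl), s k * algebraMap S B u = algebraMap S B g :=
    fun k => by
      have h1 : s k ∈ 𝔓.map (algebraMap S B) := hs ▸ Ideal.subset_span ⟨k, rfl⟩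
      obtain ⟨⟨g, u⟩, h2⟩ := (IsLocalization.mem_map_algebraMap_iff 𝔫.primeCompl B).1 h1
      exact ⟨g, u, h2⟩
  choose g u hgu using hsm
  have hmap : 𝔓.map (algebraMap S B) ≤
      (Ideal.span (Set.range fun k => (g k : S))).map (algebraMap S B) := by
    rw [hs, Ideal.span_le]
    rintro _ ⟨k, rfl⟩
    have hu : IsUnit (algebraMap S B (u k)) := IsLocalization.map_units B (u k)
    rw [SetLike.mem_coe, ← Ideal.mul_unit_mem_iff_mem _ hu, hgu]
    exact Ideal.mem_map_of_mem _ (Ideal.subset_span ⟨k, rfl⟩)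
  have hx : ∀ x ∈ 𝔓, ∃ f ∉ 𝔫, f * x ∈ Ideal.span (Set.range fun k => (g k : S)) := fun x hx => by
    obtain ⟨⟨y, m⟩, h2⟩ := (IsLocalization.mem_map_algebraMap_iff 𝔫.primeCompl B).1
      (hmap (Ideal.mem_map_of_mem _ hx))
    refine ⟨m, m.2, ?_⟩
    rw [← map_mul] at h2
    rw [mul_comm, hinj h2]
    exact y.2
  obtain ⟨T, hT⟩ := (isNoetherianRing_iff_ideal_fg S).1 inferInstance 𝔓
  choose! F hF1 hF2 using hx
  refine ⟨c, fun k => g k, ∏ x ∈ T, F x, ?_, fun k => (g k).2, fun x hx => ?_, fun b hb k => ?_⟩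
  · rw [‹𝔫.IsMaximal›.isPrime.prod_mem_iff]
    rintro ⟨x, hxT, hx⟩
    exact hF1 x (hT ▸ Ideal.subset_span hxT) hx
  · rw [← hT] at hx
    refine Submodule.span_induction (fun y hy => ?_) (by rw [mul_zero]; exact Ideal.zero_mem _)
      (fun y z _ _ h1 h2 => by rw [mul_add]; exact Ideal.add_mem _ h1 h2)
      (fun a y _ h1 => by rw [smul_eq_mul, mul_left_comm]; exact Ideal.mul_mem_left _ _ h1) hx
    rw [← Finset.mul_prod_erase T F hy, mul_comm (F y), mul_assoc]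
    exact Ideal.mul_mem_left _ _ (hF2 y (hT ▸ Ideal.subset_span hy))
  · have h1 : algebraMap S B (∑ k, b k * g k) ∈ maximalIdeal B ^ 2 := by
      have h2 := Ideal.mem_map_of_mem (algebraMap S B) hb
      rwa [Ideal.map_pow, IsLocalization.AtPrime.map_eq_maximalIdeal 𝔫 B] at h2
    have h2 : algebraMap S B (∑ k, b k * g k) = ∑ k, algebraMap S B (b k * u k) * s k := by
      rw [map_sum]
      refine Finset.sum_congr rfl fun k _ => ?_
      rw [map_mul, map_mul, ← hgu]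
      ring
    rw [h2] at h1
    have h3 := hind _ h1 k
    rw [IsLocalization.AtPrime.to_map_mem_maximal_iff B 𝔫] at h3
    exact (‹𝔫.IsMaximal›.isPrime.mem_or_mem h3).resolve_right (u k).2
-- END OP1g

-- BEGIN OP1h
theorem op1h_iso {S R : Type} [CommRing S] [CommRing R] (π : S →+* R)
    (hπ : Function.Surjective π) (q : Ideal R) [q.IsPrime] :
    Nonempty (Localization.AtPrime q ≃+* (Localization.AtPrime (q.comap π) ⧸
      (RingHom.ker π).map (algebraMap S (Localization.AtPrime (q.comap π))))) := by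
  obtain ⟨t, ht, htq, ⟨e⟩⟩ := intc_iso (RingHom.ker π) (q.comap π) (Ideal.comap_mono bot_le)
  have hmem : ∀ x, Ideal.Quotient.mk _ x ∈ t ↔ π x ∈ q := fun x => by
    rw [← Ideal.mem_comap, htq, Ideal.mem_comap]
  refine ⟨((IsLocalization.ringEquivOfRingEquiv (M := t.primeCompl) (T := q.primeCompl)
    (Localization.AtPrime t) (Localization.AtPrime q)
    (RingHom.quotientKerEquivOfSurjective hπ) ?_).symm.trans e)⟩
  ext y
  rw [Submonoid.mem_map]
  constructor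
  · rintro ⟨x, hx, rfl⟩
    obtain ⟨x, rfl⟩ := Ideal.Quotient.mk_surjective x
    exact fun h => hx ((hmem x).2 h)
  · intro hy
    obtain ⟨x, rfl⟩ := hπ y
    exact ⟨Ideal.Quotient.mk _ x, fun h => hy ((hmem x).1 h), rfl⟩

theorem op1h_int : IsJacobsonRing ℤ := by
  refine isJacobsonRing_iff_prime_eq.2 fun P hP => ?_
  by_cases h0 : P = ⊥
  · subst h0
    refine le_bot_iff.1 fun x hx => ?_
    have h1 := Ideal.mem_jacobson_bot.1 hx x
    rw [Int.isUnit_iff] at h1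
    exact mul_self_eq_zero.1 (by rcases h1 with h1 | h1 <;> nlinarith [mul_self_nonneg x])
  · exact Ideal.jacobson_eq_self_of_isMaximal (H := hP.isMaximal h0)

theorem op1h_char (R : Type) [CommRing R] [Algebra.FiniteType ℤ R] (𝔪 : Ideal R)
    [𝔪.IsMaximal] : ∃ p : ℕ, p.Prime ∧ (p : R) ∈ 𝔪 := by
  have := op1h_int
  let _ := Ideal.Quotient.field 𝔪
  have hfin : Module.Finite ℤ (R ⧸ 𝔪) := finite_of_finite_type_of_isJacobsonRing ℤ (R ⧸ 𝔪)
  have hI : ((⊥ : Ideal (R ⧸ 𝔪)).comap (algebraMap ℤ (R ⧸ 𝔪))).IsMaximal :=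
    Ideal.isMaximal_comap_of_isIntegral_of_isMaximal _
  obtain ⟨n, hn, hn0⟩ := Submodule.exists_mem_ne_zero_of_ne_bot
    (Ring.ne_bot_of_isMaximal_of_not_isField hI Int.not_isField)
  obtain ⟨p, hp⟩ := CharP.exists (R ⧸ 𝔪)
  have hp0 : (p : R ⧸ 𝔪) = 0 := CharP.cast_eq_zero _ p
  refine ⟨p, (CharP.char_is_prime_or_zero (R ⧸ 𝔪) p).resolve_right ?_, ?_⟩
  · rintro rfl
    have h1 : ((n : ℤ) : R ⧸ 𝔪) = 0 := by simpa using hn
    rw [CharP.intCast_eq_zero_iff (R ⧸ 𝔪) 0] at h1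
    exact hn0 (zero_dvd_iff.1 (by exact_mod_cast h1))
  · rw [← Ideal.Quotient.eq_zero_iff_mem, map_natCast]
    exact hp0

/-- **Openness of the regular locus at a closed point** (affine form).

PROOF.  `R` is a quotient of `S = MvPolynomial (Fin N) ℤ` by `π : S → R` surjective, `𝔓 = ker π`.
`𝔫 = 𝔪.comap π` is maximal.  `R_𝔪 ≃ S_𝔫 ⧸ 𝔓 S_𝔫` (file INT, `intc_iso`, has such an isomorphism for
`R ⧸ I`).  `𝔪` contains a prime number `p` (`R ⧸ 𝔪` is a finite field).  `exists_local_gens`: `g, f`.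
`exists_pder`: `δ`.  `exists_minor_of_independent`: `τ`, `D = det ∉ 𝔫`.  `exists_smooth_away` (file PR3):
`a ≠ 0` such that `R_𝔮` is smooth, so regular (`isRegular_of_smoothLocus`), if `a ∉ 𝔮`.  Write
`a = p ^ k * b`, `p ∤ b` (`Nat.exists_eq_pow_mul_and_not_dvd`); `b ∉ 𝔪` (`b` and `p` are coprime).
`h = π (f * D) * b ∉ 𝔪`.  Let `𝔮` be a prime with `h ∉ 𝔮`.  If `p ∉ 𝔮` then `a ∉ 𝔮`.  If `p ∈ 𝔮`, let
`𝔔 = 𝔮.comap π`; in `S_𝔔` (regular local) the `g k / 1` are independent modulo `𝔪²` in the sense of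
`isRegularLocalRing_quotient_range` (file Chart), by `independent_of_minor` and
`mem_maximalIdeal_pow_iff` (file RegLocal; clear denominators of the coefficients), so `S_𝔔 ⧸ (g)` is
regular, and `(g) = 𝔓 S_𝔔` because `f ∉ 𝔔`; `R_𝔮 ≃ S_𝔔 ⧸ 𝔓 S_𝔔`. -/
theorem exists_regular_nhd_closed (R : Type) [CommRing R] [Algebra.FiniteType ℤ R]
    (hsm : ∀ (𝔭 : Ideal R) [𝔭.IsPrime], (∀ n : ℕ, n ≠ 0 → (n : R) ∉ 𝔭) →
      Algebra.FormallySmooth ℤ (Localization.AtPrime 𝔭))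
    (𝔪 : Ideal R) [𝔪.IsMaximal] (hreg : IsRegularLocalRing (Localization.AtPrime 𝔪)) :
    ∃ h ∉ 𝔪, ∀ 𝔰 : PrimeSpectrum R, h ∉ 𝔰.asIdeal →
      IsRegularLocalRing (Localization.AtPrime 𝔰.asIdeal) := by
  classical
  obtain ⟨N, π', hπ'⟩ := Algebra.FiniteType.iff_quotient_mvPolynomial''.mp
    ‹Algebra.FiniteType ℤ R›
  obtain ⟨π, hπ⟩ : ∃ π : MvPolynomial (Fin N) ℤ →+* R, Function.Surjective π := ⟨π', hπ'⟩
  set S := MvPolynomial (Fin N) ℤ with hS
  obtain ⟨p, hp, hp𝔪⟩ := op1h_char R 𝔪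
  obtain ⟨e⟩ := op1h_iso π hπ 𝔪
  have hmax : (𝔪.comap π).IsMaximal := Ideal.comap_isMaximal_of_surjective π hπ
  obtain ⟨c, g, f, hf, hg, hfx, hind⟩ := exists_local_gens (RingHom.ker π) (𝔪.comap π)
    (IsRegularLocalRing.of_ringEquiv e)
  obtain ⟨δ, h1, h2, h3⟩ := exists_pder N p hp
  have hpS : ∀ 𝔮 : Ideal R, (p : R) ∈ 𝔮 → (p : S) ∈ 𝔮.comap π := fun 𝔮 h => by
    rwa [Ideal.mem_comap, map_natCast]
  have hgS : ∀ (𝔮 : Ideal R) k, g k ∈ 𝔮.comap π := fun 𝔮 k => by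
    rw [Ideal.mem_comap, (RingHom.mem_ker).1 (hg k)]
    exact 𝔮.zero_mem
  obtain ⟨τ, hτ⟩ := exists_minor_of_independent hp δ h1 h2 h3 (𝔪.comap π) (hpS _ hp𝔪) g (hgS _)
    hind
  obtain ⟨a, ha, hs⟩ := exists_smooth_away R hsm
  obtain ⟨m, a', hpa, rfl⟩ := Nat.exists_eq_pow_mul_and_not_dvd ha p hp.ne_one
  have ha' : (a' : R) ∉ 𝔪 := fun h => by
    have h4 : IsCoprime (p : R) (a' : R) :=
      ((Nat.Prime.coprime_iff_not_dvd hp).2 hpa).cast
    obtain ⟨x, y, hxy⟩ := h4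
    exact ‹𝔪.IsMaximal›.ne_top ((Ideal.eq_top_iff_one _).2 (hxy ▸
      𝔪.add_mem (𝔪.mul_mem_left x hp𝔪) (𝔪.mul_mem_left y h)))
  refine ⟨π (f * (Matrix.of fun k i : Fin c => lam p δ (g k) (τ i)).det) * a', ?_, ?_⟩
  · rw [‹𝔪.IsMaximal›.isPrime.mul_mem_iff_mem_or_mem, ← Ideal.mem_comap,
      hmax.isPrime.mul_mem_iff_mem_or_mem]
    exact not_or.2 ⟨not_or.2 ⟨hf, hτ⟩, ha'⟩
  intro 𝔰 h𝔰
  rw [𝔰.2.mul_mem_iff_mem_or_mem, map_mul, 𝔰.2.mul_mem_iff_mem_or_mem] at h𝔰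
  push Not at h𝔰
  obtain ⟨⟨hf𝔰, hd𝔰⟩, ha𝔰⟩ := h𝔰
  by_cases hp𝔰 : (p : R) ∈ 𝔰.asIdeal
  swap
  · refine isRegular_of_smoothLocus R 𝔰 (hs 𝔰 fun h => ?_)
    rw [Nat.cast_mul, Nat.cast_pow, 𝔰.2.mul_mem_iff_mem_or_mem] at h
    exact h.elim (fun h => hp𝔰 (𝔰.2.mem_of_pow_mem _ h)) ha𝔰
  obtain ⟨e'⟩ := op1h_iso π hπ 𝔰.asIdeal
  set 𝔔 := 𝔰.asIdeal.comap π with h𝔔
  set O := Localization.AtPrime 𝔔 with hO
  have hOreg : IsRegularLocalRing O := IsRegularRing.isRegularLocalRing_localization 𝔔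
  have hF : ∀ k, algebraMap S O (g k) ∈ maximalIdeal O := fun k =>
    (IsLocalization.AtPrime.to_map_mem_maximal_iff O 𝔔 _).2 (hgS _ k)
  have hreg' := isRegularLocalRing_quotient_range c O hOreg (fun k => algebraMap S O (g k)) hF
    (fun b hb k => by
      obtain ⟨s₀, hs₀⟩ := IsLocalization.exist_integer_multiples_of_finite 𝔔.primeCompl b
      choose b' hb' using hs₀
      have h4 : algebraMap S O (∑ k, b' k * g k) ∈ maximalIdeal O ^ 2 := by
        have h5 : algebraMap S O (∑ k, b' k * g k) =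
            algebraMap S O s₀ * ∑ k, b k * algebraMap S O (g k) := by
          rw [map_sum, Finset.mul_sum]
          refine Finset.sum_congr rfl fun k _ => ?_
          rw [map_mul, hb', Algebra.smul_def, mul_assoc]
        rw [h5]
        exact Ideal.mul_mem_left _ _ hb
      obtain ⟨t, ht, ht2⟩ := (mem_maximalIdeal_pow_iff 𝔔).1 h4
      have h5 := independent_of_minor hp δ h1 h2 𝔔 (hpS _ hp𝔰) g (hgS _) τ hd𝔰 t ht b' ht2 k
      rw [← IsLocalization.AtPrime.to_map_mem_maximal_iff O 𝔔, hb', Algebra.smul_def] at h5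
      exact (Ideal.unit_mul_mem_iff_mem _ (IsLocalization.map_units O s₀)).1 h5)
  have hspan : Ideal.span (Set.range fun k => algebraMap S O (g k)) =
      (RingHom.ker π).map (algebraMap S O) := by
    refine le_antisymm (Ideal.span_le.2 ?_) (Ideal.map_le_iff_le_comap.2 fun x hx => ?_)
    · rintro _ ⟨k, rfl⟩
      exact Ideal.mem_map_of_mem _ (hg k)
    · have h4 := Ideal.mem_map_of_mem (algebraMap S O) (hfx x hx)
      rw [map_mul, Ideal.map_span, ← Set.range_comp] at h4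
      have hfu : IsUnit (algebraMap S O f) := IsLocalization.map_units O (⟨f, hf𝔰⟩ : 𝔔.primeCompl)
      exact (Ideal.unit_mul_mem_iff_mem _ hfu).1 h4
  rw [hspan] at hreg'
  exact IsRegularLocalRing.of_ringEquiv e'.symm
-- END OP1h

end Pool.Agent.Lib.MP_6a3dac_ag.NU
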