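import Pool.Agent.Lib.MP_6a3dac_ag.Defs

/-!
# Regular models with the valuative criterion for locally discrete valuation rings

The definitions used in the statement of the theorem.
-/

set_option autoImplicit false

namespace Pool.Agent.Lib.MP_6a3dac_ag.NU

open CategoryTheory Limits AlgebraicGeometry NumberField MvPolynomial

attribute [local instance] MvPolynomial.gradedAlgebra

/-- The projective space over `R` with `n` homogeneous coordinates. -/
noncomputable def PN (R : Type) [CommRing R] (n : ℕ) : Scheme.{0} :=
  Proj (homogeneousSubmodule (Fin n) R)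

/-- The structure morphism of the projective space. -/
noncomputable def PNTo (R : Type) [CommRing R] (n : ℕ) : PN R n ⟶ Spec (CommRingCat.of R) :=
  projTo R (homogeneousSubmodule (Fin n) R)

/-- The generic point of the spectrum of the ring of integers of `E`, as a morphism. -/
noncomputable abbrev genPt (E : Type) [Field E] [NumberField E] :
    Spec (CommRingCat.of E) ⟶ Spec (CommRingCat.of (𝓞 E)) :=
  Spec.map (CommRingCat.ofHom (algebraMap (𝓞 E) E))

/-- `f : X ⟶ Spec E` is the generic fibre of `g : Y ⟶ Spec (𝓞 E)`. -/
def HasGenericFibre (E : Type) [Field E] [NumberField E] {X Y : Scheme.{0}}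
    (f : X ⟶ Spec (CommRingCat.of E)) (g : Y ⟶ Spec (CommRingCat.of (𝓞 E))) : Prop :=
  ∃ e : pullback g (genPt E) ≅ X, e.hom ≫ f = pullback.snd g (genPt E)

/-- `X` is a closed subscheme of a projective space over `E`, or of the generic fibre of a proper
scheme `P` over the ring of integers of `E`. -/
def HasClosure (E : Type) [Field E] [NumberField E] {X : Scheme.{0}}
    (f : X ⟶ Spec (CommRingCat.of E)) : Prop :=
  (∃ (n : ℕ) (i : X ⟶ PN E n), IsClosedImmersion i ∧ i ≫ PNTo E n = f) ∨
  ∃ (P : Scheme.{0}) (p : P ⟶ Spec (CommRingCat.of (𝓞 E))) (i : X ⟶ pullback p (genPt E)),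
    IsProper p ∧ IsClosedImmersion i ∧ i ≫ pullback.snd p (genPt E) = f

/-- The morphism `Spec K ⟶ Spec D` for a `D`-algebra `K` which is a field. -/
noncomputable abbrev fracPt (D K : Type) [CommRing D] [Field K] [Algebra D K] :
    Spec (CommRingCat.of K) ⟶ Spec (CommRingCat.of D) :=
  Spec.map (CommRingCat.ofHom (algebraMap D K))

/-- The discrete valuation ring `V` has absolute ramification index at most `d`: the valuations of
the prime numbers are at most `d`. -/
def RamLE (V : Type) [CommRing V] [IsDomain V] [IsDiscreteValuationRing V] (d : ℕ) : Prop :=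
  ∀ p : ℕ, p.Prime → IsDiscreteValuationRing.addVal V (p : V) ≤ d

/-- The ring `R` has a local homomorphism to a discrete valuation ring of characteristic zero. -/
def HasDiscretePoint (R : Type) [CommRing R] : Prop :=
  ∃ (V : Type) (_ : CommRing V) (_ : IsDomain V) (_ : IsDiscreteValuationRing V) (φ : R →+* V),
    CharZero V ∧ IsLocalHom φ

/-- For all finitely generated subfields `L` of the field `K ⊇ R` the ring `R ∩ L` has a local
homomorphism to a discrete valuation ring of characteristic zero. -/
def LocallyDiscrete (R K : Type) [CommRing R] [Field K] [Algebra R K] : Prop :=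
  ∀ s : Finset K,
    HasDiscretePoint ((Subfield.closure (s : Set K)).toSubring.comap (algebraMap R K))

/-- `g : 𝒰 ⟶ Spec (𝓞 E)` is a regular model of `f : X ⟶ Spec E` which satisfies the valuative
criterion for all locally discrete valuation rings. -/
structure IsDiscreteModel (E : Type) [Field E] [NumberField E] {X 𝒰 : Scheme.{0}}
    (f : X ⟶ Spec (CommRingCat.of E)) (g : 𝒰 ⟶ Spec (CommRingCat.of (𝓞 E))) : Prop where
  /-- `𝒰` is regular, separated, flat and locally of finite type, with generic fibre `X`. -/
  reg : ∀ u : 𝒰, IsRegularLocalRing (𝒰.presheaf.stalk u)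
  sep : IsSeparated g
  flat : Flat g
  lft : LocallyOfFiniteType g
  gen : HasGenericFibre E f g
  /-- The valuative criterion holds for all locally discrete valuation rings, for example for all
  discrete valuation rings of characteristic zero, for all valuation rings with residue fields of
  characteristic zero, and for all valuation rings composed of two such rings. -/
  val : ∀ S : ValuativeCommSq g, LocallyDiscrete S.R S.K → Nonempty (Unique S.commSq.LiftStruct)
  /-- For all integrally closed domains `D` which are integral over a Dedekind domain `D₀` of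
  characteristic zero, with field of fractions `K`, the `K`-points extend uniquely to
  `D`-points. -/
  int : ∀ (D₀ D K : Type) [CommRing D₀] [IsDedekindDomain D₀] [CharZero D₀] [CommRing D]
    [IsDomain D] [IsIntegrallyClosed D] [Algebra D₀ D] [FaithfulSMul D₀ D]
    [Algebra.IsIntegral D₀ D] [Field K] [Algebra D K] [IsFractionRing D K]
    (s : Spec (CommRingCat.of D) ⟶ Spec (CommRingCat.of (𝓞 E)))
    (x : Spec (CommRingCat.of K) ⟶ 𝒰), x ≫ g = fracPt D K ≫ s →
    ∃! l : Spec (CommRingCat.of D) ⟶ 𝒰, fracPt D K ≫ l = x ∧ l ≫ g = s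
  /-- `𝒰` is the increasing union of quasi-compact open subschemes `W d`, containing the generic
  fibre, each of them an open subscheme of a proper flat model `Y`, which contain all points over
  discrete valuation rings of absolute ramification index at most `d` and over rings of integers of
  number fields of degree at most `d`, of `𝒰` as well as of `Y`. -/
  fin : ∃ W : ℕ → 𝒰.Opens, Monotone W ∧ (∀ u : 𝒰, ∃ d, u ∈ W d) ∧ ∀ d : ℕ,
    IsCompact (W d : Set 𝒰) ∧ Set.range (pullback.fst g (genPt E)) ⊆ W d ∧
    ∃ (Y : Scheme.{0}) (h : Y ⟶ Spec (CommRingCat.of (𝓞 E))) (j : (W d).toScheme ⟶ Y),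
      IsProper h ∧ Flat h ∧ HasGenericFibre E f h ∧ IsOpenImmersion j ∧ j ≫ h = (W d).ι ≫ g ∧
      (∀ (V : Type) [CommRing V] [IsDomain V] [IsDiscreteValuationRing V] [CharZero V],
        RamLE V d → (∀ l : Spec (CommRingCat.of V) ⟶ 𝒰, Set.range l ⊆ W d) ∧
          ∀ a : Spec (CommRingCat.of V) ⟶ Y, Set.range a ⊆ Set.range j) ∧
      ∀ (L : Type) [Field L] [NumberField L], Module.finrank ℚ L ≤ d →
        (∀ l : Spec (CommRingCat.of (𝓞 L)) ⟶ 𝒰, Set.range l ⊆ W d) ∧
          ∀ a : Spec (CommRingCat.of (𝓞 L)) ⟶ Y, Set.range a ⊆ Set.range j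
  /-- If `𝒰` is quasi-compact, it is a regular proper flat model. -/
  proper : CompactSpace 𝒰 → IsProper g

end Pool.Agent.Lib.MP_6a3dac_ag.NU
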