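import Pool.Agent.Lib.MP_6a3dac_ag.NU.Stmt

/-!
# Regular models with the valuative criterion for all discrete valuation rings

The definitions used in the statement of the theorem.
-/

set_option autoImplicit false

namespace Pool.Agent.Lib.MP_6a3dac_ag.NU

open CategoryTheory Limits AlgebraicGeometry NumberField

/-- The rings which are obtained from fields and from rings containing the rational numbers by
finitely many compositions with discrete valuation rings: if the ring `R_P` is obtained in this
way and `R / P` is a discrete valuation ring, of any characteristic, then `R` is obtained in this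
way. -/
inductive IsComposed : ∀ (R : Type) [CommRing R], Prop
  | field (R : Type) [CommRing R] (h : IsField R) : IsComposed R
  | rat (R : Type) [CommRing R] (h : ∀ n : ℕ, n ≠ 0 → IsUnit (n : R)) : IsComposed R
  | comp (R : Type) [CommRing R] (P : Ideal R) [P.IsPrime]
      (h : IsComposed (Localization.AtPrime P)) (h' : IsDiscreteValuationRing (R ⧸ P)) :
      IsComposed R

/-- For all finitely generated subfields `L` of the field `K ⊇ R` the ring `R ∩ L` is obtained from
a field or from a ring containing the rational numbers by finitely many compositions with discrete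
valuation rings. -/
def LocallyComposed (R K : Type) [CommRing R] [Field K] [Algebra R K] : Prop :=
  ∀ s : Finset K, IsComposed ((Subfield.closure (s : Set K)).toSubring.comap (algebraMap R K))

/-- `g : 𝒰 ⟶ Spec (𝓞 E)` is a regular model of `f : X ⟶ Spec E` which satisfies the valuative
criterion of properness for all discrete valuation rings. -/
structure IsValuativeModel (E : Type) [Field E] [NumberField E] {X 𝒰 : Scheme.{0}}
    (f : X ⟶ Spec (CommRingCat.of E)) (g : 𝒰 ⟶ Spec (CommRingCat.of (𝓞 E))) : Prop where
  /-- `𝒰` is regular, separated, flat and locally of finite type, with generic fibre `X`. -/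
  reg : ∀ u : 𝒰, IsRegularLocalRing (𝒰.presheaf.stalk u)
  sep : IsSeparated g
  flat : Flat g
  lft : LocallyOfFiniteType g
  gen : HasGenericFibre E f g
  /-- The valuative criterion of properness holds for all discrete valuation rings, of
  characteristic zero and of positive characteristic. -/
  dvr : ∀ S : ValuativeCommSq g, IsDiscreteValuationRing S.R →
    Nonempty (Unique S.commSq.LiftStruct)
  /-- It holds for all valuation rings which are locally obtained from fields and rings containing
  the rational numbers by finitely many compositions with discrete valuation rings. -/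
  val : ∀ S : ValuativeCommSq g, LocallyComposed S.R S.K → Nonempty (Unique S.commSq.LiftStruct)
  /-- For all integrally closed domains `D`, with field of fractions `K`, which are integral over a
  Dedekind domain `D₀` of any characteristic, the `K`-points extend uniquely to `D`-points. -/
  int : ∀ (D₀ D K : Type) [CommRing D₀] [IsDedekindDomain D₀] [CommRing D] [IsDomain D]
    [IsIntegrallyClosed D] [Algebra D₀ D] [FaithfulSMul D₀ D] [Algebra.IsIntegral D₀ D] [Field K]
    [Algebra D K] [IsFractionRing D K]
    (s : Spec (CommRingCat.of D) ⟶ Spec (CommRingCat.of (𝓞 E)))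
    (x : Spec (CommRingCat.of K) ⟶ 𝒰), x ≫ g = fracPt D K ≫ s →
    ∃! l : Spec (CommRingCat.of D) ⟶ 𝒰, fracPt D K ≫ l = x ∧ l ≫ g = s
  /-- `𝒰` is the increasing union of quasi-compact open subschemes `W d`, containing the generic
  fibre, each of them an open subscheme of a proper flat model `Y`, which contain all points over
  discrete valuation rings of absolute ramification index at most `d` and over rings of integers of
  number fields of degree at most `d`, of `𝒰` as well as of `Y`. -/
  fin : ∃ W : ℕ → 𝒰.Opens, Monotone W ∧ (∀ u : 𝒰, ∃ d, u ∈ W d) ∧ ∀ d : ℕ,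
    IsCompact (W d : Set 𝒰) ∧ Set.range (pullback.fst g (genPt E)) ⊆ W d ∧
    ∃ (Y : Scheme.{0}) (h : Y ⟶ Spec (CommRingCat.of (𝓞 E))) (j : (W d).toScheme ⟶ Y),
      IsProper h ∧ Flat h ∧ HasGenericFibre E f h ∧ IsOpenImmersion j ∧ j ≫ h = (W d).ι ≫ g ∧
      (∀ (V : Type) [CommRing V] [IsDomain V] [IsDiscreteValuationRing V] [CharZero V],
        RamLE V d → (∀ l : Spec (CommRingCat.of V) ⟶ 𝒰, Set.range l ⊆ W d) ∧
          ∀ a : Spec (CommRingCat.of V) ⟶ Y, Set.range a ⊆ Set.range j) ∧
      ∀ (L : Type) [Field L] [NumberField L], Module.finrank ℚ L ≤ d →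
        (∀ l : Spec (CommRingCat.of (𝓞 L)) ⟶ 𝒰, Set.range l ⊆ W d) ∧
          ∀ a : Spec (CommRingCat.of (𝓞 L)) ⟶ Y, Set.range a ⊆ Set.range j
  /-- If `𝒰` is quasi-compact, it is a regular proper flat model. -/
  proper : CompactSpace 𝒰 → IsProper g

/-- `X` has a regular proper flat model over the ring of integers of `E`. -/
def HasRegularModel (E : Type) [Field E] [NumberField E] {X : Scheme.{0}}
    (f : X ⟶ Spec (CommRingCat.of E)) : Prop :=
  ∃ (𝒴 : Scheme.{0}) (g : 𝒴 ⟶ Spec (CommRingCat.of (𝓞 E))),
    (∀ y : 𝒴, IsRegularLocalRing (𝒴.presheaf.stalk y)) ∧ IsProper g ∧ Flat g ∧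
      HasGenericFibre E f g

end Pool.Agent.Lib.MP_6a3dac_ag.NU
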