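import Pool.Agent.Lib.MP_6a3dac_ag.Mg.G047
import Pool.Agent.Lib.MP_6a3dac_ag.Mg.G072

/-!
# NU: the blow-up of an affine scheme
-/

set_option autoImplicit false

namespace Pool.Agent.Lib.MP_6a3dac_ag.NU

open CategoryTheory Limits AlgebraicGeometry HomogeneousLocalization

/-- The blow-up of `Spec R` in the ideal `I`. -/
noncomputable def blProj {R : Type} [CommRing R] (I : Ideal R) : Scheme.{0} := Proj (reesGr I)

/-- The structure morphism of the blow-up. -/
noncomputable def blTo {R : Type} [CommRing R] (I : Ideal R) :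
    blProj I ⟶ Spec (CommRingCat.of R) := projTo R (reesGr I)

/-- The functoriality of the blow-up. -/
noncomputable def blMap {R R' : Type} [CommRing R] [CommRing R'] (f : R →+* R') {I : Ideal R}
    {I' : Ideal R'} (h : I.map f = I') : blProj I' ⟶ blProj I :=
  Proj.map (reesMap f h) (irrelevant_le_reesMap f h)

-- BEGIN BU2a
/-- Functoriality, identity. -/
theorem blMap_id {R : Type} [CommRing R] {I : Ideal R} (h : I.map (RingHom.id R) = I) :
    blMap (RingHom.id R) h = 𝟙 (blProj I) := by
  have key : ∀ (g : reesGr I →+*ᵍ reesGr I) (hg : HomogeneousIdeal.irrelevant (reesGr I) ≤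
      (HomogeneousIdeal.irrelevant (reesGr I)).map g), g = .id (reesGr I) →
      Proj.map g hg = 𝟙 (Proj (reesGr I)) := by
    rintro g hg rfl
    exact Proj.map_id
  refine key _ _ ?_
  ext x : 2
  rw [coe_reesMap, Polynomial.map_id]
  rfl
-- END BU2a

-- BEGIN BU2b
/-- Functoriality, composition. -/
theorem blMap_comp {R R' R'' : Type} [CommRing R] [CommRing R'] [CommRing R''] (f : R →+* R')
    (g : R' →+* R'') {I : Ideal R} {I' : Ideal R'} {I'' : Ideal R''} (hf : I.map f = I')
    (hg : I'.map g = I'') (hgf : I.map (g.comp f) = I'') :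
    blMap (g.comp f) hgf = blMap g hg ≫ blMap f hf := by
  have key : ∀ (k : reesGr I →+*ᵍ reesGr I'') (hk : HomogeneousIdeal.irrelevant (reesGr I'') ≤
      (HomogeneousIdeal.irrelevant (reesGr I)).map k), k = (reesMap g hg).comp (reesMap f hf) →
      Proj.map k hk = blMap g hg ≫ blMap f hf := by
    rintro k hk rfl
    exact Proj.map_comp _ _ _ _
  refine key _ _ ?_
  ext x : 2
  rw [coe_reesMap]
  change _ = ((reesMap g hg (reesMap f hf x) : reesAlgebra I'') : Polynomial R'')
  rw [coe_reesMap, coe_reesMap, Polynomial.map_map]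
-- END BU2b

-- BEGIN BU2c
theorem bu2c_alg {R R' : Type} [CommRing R] [CommRing R'] (f : R →+* R') {I : Ideal R}
    {I' : Ideal R'} (h : I.map f = I') (r : R) :
    reesMap f h (algebraMap R (reesAlgebra I) r) = algebraMap R' (reesAlgebra I') (f r) := by
  apply Subtype.ext
  rw [coe_reesMap]
  exact Polynomial.map_C f

theorem bu2c_away {R R' : Type} [CommRing R] [CommRing R'] (f : R →+* R') {I : Ideal R}
    {I' : Ideal R'} (h : I.map f = I') (s : reesAlgebra I) (r : R) :
    Away.map (reesMap f h) s (baseToAway (reesGr I) s r) =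
      baseToAway (reesGr I') (reesMap f h s) (f r) := by
  ext
  rw [val_baseToAway]
  change (Away.map (reesMap f h) s (HomogeneousLocalization.mk _)).val = _
  rw [Away.map, HomogeneousLocalization.map_mk, val_mk, ← Localization.mk_one_eq_algebraMap,
    Localization.mk_eq_mk_iff, Localization.r_iff_exists]
  refine ⟨1, ?_⟩
  simp only [OneMemClass.coe_one, one_mul]
  change reesMap f h (algebraMap R (reesAlgebra I) r) =
    reesMap f h ((1 : reesGr I 0) : reesAlgebra I) * algebraMap R' (reesAlgebra I') (f r)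
  rw [bu2c_alg, show (((1 : reesGr I 0) : reesAlgebra I)) = 1 from rfl, map_one, one_mul]

/-- The blow-up is functorial over the base. -/
theorem blMap_blTo {R R' : Type} [CommRing R] [CommRing R'] (f : R →+* R') {I : Ideal R}
    {I' : Ideal R'} (h : I.map f = I') :
    blMap f h ≫ blTo I = blTo I' ≫ Spec.map (CommRingCat.ofHom f) := by
  refine (Proj.mapAffineOpenCover (reesMap f h) (irrelevant_le_reesMap f h)).openCover.hom_ext
    _ _ ?_
  rintro ⟨i, s⟩
  have h1 := Proj.awayι_comp_map_assoc (reesMap f h) (irrelevant_le_reesMap f h) i.2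
    (s : reesAlgebra I) s.2 (projTo R (reesGr I))
  have h2 := awayι_projTo (reesGr I) (s : reesAlgebra I) s.2 i.2
  have h3 := awayι_projTo (reesGr I') (reesMap f h (s : reesAlgebra I)) ((reesMap f h).2 s.2) i.2
  refine h1.trans ((congrArg (fun z => Spec.map (CommRingCat.ofHom
    (Away.map (reesMap f h) (s : reesAlgebra I))) ≫ z) h2).trans (Eq.trans ?_
      ((Category.assoc _ _ _).symm.trans (congrArg (fun z => z ≫
        Spec.map (CommRingCat.ofHom f)) h3)).symm))
  change Spec.map _ ≫ Spec.map _ = Spec.map _ ≫ Spec.map _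
  rw [← Spec.map_comp, ← Spec.map_comp, ← CommRingCat.ofHom_comp, ← CommRingCat.ofHom_comp]
  exact congrArg (fun z => Spec.map (CommRingCat.ofHom z))
    (RingHom.ext fun r => bu2c_away f h (s : reesAlgebra I) r)
-- END BU2c

-- BEGIN BU2d
theorem bu2d_surj {R R' : Type} [CommRing R] [CommRing R'] [Algebra R R'] (M : Submonoid R)
    [IsLocalization M R'] {I : Ideal R} (a : Polynomial R')
    (ha : a ∈ reesAlgebra (I.map (algebraMap R R'))) :
    ∃ r ∈ M, ∃ b ∈ reesAlgebra I,
      b.map (algebraMap R R') = Polynomial.C (algebraMap R R' r) * a := by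
  rw [a.as_sum_support]
  refine Finset.sum_induction _ (fun a => ∃ r ∈ M, ∃ b ∈ reesAlgebra I,
    b.map (algebraMap R R') = Polynomial.C (algebraMap R R' r) * a) ?_
    ⟨1, one_mem M, 0, zero_mem _, by simp⟩ fun i _ => ?_
  · rintro x y ⟨r, hr, b, hb, e⟩ ⟨s, hs, d, hd, e'⟩
    refine ⟨r * s, mul_mem hr hs, s • b + r • d, add_mem (Subalgebra.smul_mem _ hb s)
      (Subalgebra.smul_mem _ hd r), ?_⟩
    simp only [Polynomial.smul_eq_C_mul, Polynomial.map_add, Polynomial.map_mul, Polynomial.map_C,
      e, e', map_mul]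
    ring
  · have h1 := ha i
    rw [← Ideal.map_pow] at h1
    obtain ⟨⟨b, r⟩, e⟩ := (IsLocalization.mem_map_algebraMap_iff M R').1 h1
    exact ⟨r, r.2, Polynomial.monomial i b, reesAlgebra.monomial_mem.2 b.2, by
      rw [Polynomial.map_monomial, ← e, Polynomial.C_mul_monomial, mul_comm]⟩

/-- The blow-up of a localization. -/
theorem isPullback_blMap {R R' : Type} [CommRing R] [CommRing R'] [Algebra R R']
    (M : Submonoid R) [IsLocalization M R'] {I : Ideal R} {I' : Ideal R'}
    (h : I.map (algebraMap R R') = I') :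
    IsPullback (blMap (algebraMap R R') h) (blTo I') (blTo I)
      (Spec.map (CommRingCat.ofHom (algebraMap R R'))) := by
  refine isPullback_proj (reesGr I) (reesGr I') M (reesMap (algebraMap R R') h) (fun r => ?_)
    (fun a => ?_) (fun b hb => ?_) _
  · exact Subtype.ext ((coe_reesMap _ h _).trans (Polynomial.map_C _))
  · subst h
    obtain ⟨r, hr, b, hb, e⟩ := bu2d_surj M a.1 a.2
    exact ⟨r, hr, ⟨b, hb⟩, Subtype.ext ((coe_reesMap _ rfl _).trans e)⟩
  · let := (Polynomial.mapRingHom (algebraMap R R')).toAlgebra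
    have := Polynomial.isLocalization M R'
    obtain ⟨⟨_, r, hr, rfl⟩, e⟩ := (IsLocalization.map_eq_zero_iff (M.map Polynomial.C)
      (Polynomial R') b.1).1 ((coe_reesMap _ h b).symm.trans (congrArg Subtype.val hb))
    exact ⟨r, hr, Subtype.ext e⟩
-- END BU2d

-- BEGIN BU2e
/-- The blow-up is proper. -/
theorem isProper_blTo {R : Type} [CommRing R] [IsNoetherianRing R] (I : Ideal R) :
    IsProper (blTo I) :=
  isProper_projTo _ (reesGr_zero I)
-- END BU2e

-- BEGIN BU2f
theorem bu2f_mem {R : Type} [CommRing R] (i : ℕ) {x : reesAlgebra (⊤ : Ideal R)}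
    (hx : x ∈ reesGr (⊤ : Ideal R) i) (s : reesAlgebra (⊤ : Ideal R))
    (hs : (s : Polynomial R) = Polynomial.monomial 1 1) :
    ∃ a : R, x = algebraMap R _ a * s ^ i := by
  obtain ⟨a, -, hx⟩ := (mem_reesGr _ _ _).1 hx
  refine ⟨a, Subtype.ext ?_⟩
  change (x : Polynomial R) = Polynomial.C a * (s : Polynomial R) ^ i
  rw [hx, hs, Polynomial.monomial_pow, Polynomial.C_mul_monomial, one_pow, mul_one, one_mul]

/-- PROOF.  The open immersion `Proj.awayι _ s` for `s = monomial 1 1` is surjective, and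
`baseToAway _ s` is bijective. -/
theorem isIso_blTo_top {R : Type} [CommRing R] : IsIso (blTo (⊤ : Ideal R)) := by
  let s : reesAlgebra (⊤ : Ideal R) :=
    ⟨Polynomial.monomial 1 1, reesAlgebra.monomial_mem.2 (by simp)⟩
  have hs : s ∈ reesGr (⊤ : Ideal R) 1 := (mem_reesGr _ _ _).2 ⟨1, by simp, rfl⟩
  have hb : Proj.basicOpen (reesGr (⊤ : Ideal R)) s = ⊤ := by
    have h := Proj.iSup_basicOpen_eq_top (reesGr (⊤ : Ideal R)) (fun _ : Unit => s) (by
      rw [HomogeneousIdeal.toIdeal_irrelevant_le]
      intro i hi x hx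
      obtain ⟨a, rfl⟩ := bu2f_mem i hx s rfl
      have h0 : s ∈ Ideal.span (Set.range fun _ : Unit => s) := Ideal.subset_span ⟨(), rfl⟩
      exact Ideal.mul_mem_left _ _ (Ideal.pow_mem_of_mem _ h0 i hi))
    simpa using h
  have hj : IsIso (Proj.awayι (reesGr (⊤ : Ideal R)) s hs one_pos) :=
    isIso_of_isOpenImmersion_of_opensRange_eq_top _ (by rw [Proj.opensRange_awayι, hb])
  have h2 : Function.Bijective (baseToAway (reesGr (⊤ : Ideal R)) s) := by
    constructor
    · intro r r' h
      have h3 := congrArg HomogeneousLocalization.val h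
      rw [val_baseToAway, val_baseToAway,
        IsLocalization.eq_iff_exists (Submonoid.powers s)] at h3
      obtain ⟨⟨_, m, rfl⟩, hm⟩ := h3
      have h4 : (Polynomial.monomial 1 (1 : R)) ^ m * Polynomial.C r =
          (Polynomial.monomial 1 (1 : R)) ^ m * Polynomial.C r' := congrArg Subtype.val hm
      rw [Polynomial.monomial_pow, Polynomial.monomial_mul_C, Polynomial.monomial_mul_C] at h4
      simpa using congrArg (fun f => Polynomial.coeff f (1 * m)) h4
    · intro z
      obtain ⟨k, a, ha, rfl⟩ := Away.mk_surjective (reesGr (⊤ : Ideal R)) hs z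
      obtain ⟨b, rfl⟩ := bu2f_mem _ ha s rfl
      refine ⟨b, ?_⟩
      ext
      rw [val_baseToAway, Away.val_mk, ← Localization.mk_one_eq_algebraMap,
        Localization.mk_eq_mk_iff, Localization.r_iff_exists]
      refine ⟨1, ?_⟩
      simp only [OneMemClass.coe_one, one_mul, smul_eq_mul, mul_one]
      ring
  have h3 : IsIso (CommRingCat.ofHom (baseToAway (reesGr (⊤ : Ideal R)) s)) :=
    (ConcreteCategory.isIso_iff_bijective _).2 h2
  have h4 : IsIso (Proj.awayι (reesGr (⊤ : Ideal R)) s hs one_pos ≫ blTo (⊤ : Ideal R)) := by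
    rw [blTo, awayι_projTo]
    infer_instance
  exact IsIso.of_isIso_comp_left (Proj.awayι (reesGr (⊤ : Ideal R)) s hs one_pos) _
-- END BU2f

end Pool.Agent.Lib.MP_6a3dac_ag.NU
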