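import Pool.Agent.Lib.MP_6a3dac_ag.NU.BU2

/-!
# NU: the local rings of the blow-up
-/

set_option autoImplicit false

namespace Pool.Agent.Lib.MP_6a3dac_ag.NU

open CategoryTheory Limits AlgebraicGeometry HomogeneousLocalization IsLocalRing

-- BEGIN BU3a
/-- A scheme with a covering by integral open subschemes containing a fixed point is integral.

PROOF.  `X` is reduced: its stalks are stalks of integral schemes
(`isReduced_of_isReduced_stalk`, or reducedness is local).  `X` is irreducible: let `U`, `V` be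
nonempty opens, `x ∈ U`, with `Y`, `i` for `x`: `i ⁻¹ U` is a nonempty open of the irreducible space
`Y`, and `i ⁻¹ (V')` too for every open `V' ∋ η`.  So every nonempty open `U` meets every open
containing `η`; `U ∩ i(Y)` is a nonempty open subset of the irreducible space `i(Y) ∋ η`.  Hence
`η` is in ... : for nonempty opens `U`, `V` with `x ∈ U`, `y ∈ V`, ranges `W_x`, `W_y ∋ η`: the
irreducible space `W_x` gives `U ∩ W_x ∩ W_y ≠ ∅`; the irreducible space `W_y` contains the nonempty
opens `U ∩ W_x ∩ W_y` and `V ∩ W_y`, so they meet.  Then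
`isIntegral_of_irreducibleSpace_of_isReduced`. -/
theorem isIntegral_of_cover {X : Scheme.{0}} (η : X)
    (h : ∀ x : X, ∃ (Y : Scheme.{0}) (i : Y ⟶ X), IsOpenImmersion i ∧ IsIntegral Y ∧
      x ∈ Set.range i ∧ η ∈ Set.range i) : IsIntegral X := by
  choose Y i hi hY hx hη using h
  have hred : ∀ x : X, _root_.IsReduced (X.presheaf.stalk x) := fun x => by
    have := hi x
    have := hY x
    obtain ⟨y, hy⟩ := hx x
    rw [← hy]
    exact isReduced_of_injective ((i x).stalkMap y).hom
      (ConcreteCategory.bijective_of_isIso ((i x).stalkMap y)).1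
  have := isReduced_of_isReduced_stalk X
  have : IrreducibleSpace X :=
    { toNonempty := ⟨η⟩
      isPreirreducible_univ := by
        rintro U V hU hV ⟨x, -, hxU⟩ ⟨y, -, hyV⟩
        have := hi x
        have := hi y
        have := hY x
        have := hY y
        obtain ⟨p, hp⟩ := hx x
        obtain ⟨e, he⟩ := hη x
        obtain ⟨q, hq⟩ := hx y
        obtain ⟨r, hr, ⟨r', hr'⟩⟩ := nonempty_preirreducible_inter
          (hU.preimage (i x).continuous)
          ((i y).isOpenEmbedding.isOpen_range.preimage (i x).continuous)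
          ⟨p, by rw [Set.mem_preimage, hp]; exact hxU⟩
          ⟨e, by rw [Set.mem_preimage, he]; exact hη y⟩
        obtain ⟨z, hz1, hz2⟩ := nonempty_preirreducible_inter (hU.preimage (i y).continuous)
          (hV.preimage (i y).continuous) ⟨r', by rw [Set.mem_preimage, hr']; exact hr⟩
          ⟨q, by rw [Set.mem_preimage, hq]; exact hyV⟩
        exact ⟨_, trivial, hz1, hz2⟩ }
  exact isIntegral_of_irreducibleSpace_of_isReduced X
-- END BU3a

-- BEGIN BU3b
theorem bu3b_away {R S : Type} [CommRing R] [CommRing S] [IsDomain S] [Algebra R S]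
    (𝒮 : ℕ → Submodule R S) [GradedAlgebra 𝒮] {s : S} (hs : s ≠ 0) : IsDomain (Away 𝒮 s) := by
  have := IsLocalization.isDomain_localization (powers_le_nonZeroDivisors_of_noZeroDivisors hs)
  exact Function.Injective.isDomain
    (algebraMap (Away 𝒮 s) (Localization (Submonoid.powers s))) (val_injective _)

theorem bu3b_irr {R : Type} [CommRing R] (I : Ideal R) :
    (HomogeneousIdeal.irrelevant (reesGr I)).toIdeal ≤ Ideal.span (Set.range fun g : I =>
      (⟨Polynomial.monomial 1 (g : R), reesAlgebra.monomial_mem.2 (by simp)⟩ :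
        reesAlgebra I)) := by
  rw [HomogeneousIdeal.toIdeal_irrelevant_le]
  intro i hi a ha
  obtain ⟨a', ha', e⟩ := (mem_reesGr I i a).1 ha
  obtain ⟨j, rfl⟩ : ∃ j, i = j + 1 := ⟨i - 1, by omega⟩
  rw [pow_succ'] at ha'
  obtain ⟨y, hy, hy'⟩ := Submodule.mul_induction_on
    (C := fun u => ∃ y : reesAlgebra I, (y : Polynomial R) = Polynomial.monomial (j + 1) u ∧
      y ∈ Ideal.span (Set.range fun g : I =>
        (⟨Polynomial.monomial 1 (g : R), reesAlgebra.monomial_mem.2 (by simp)⟩ :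
          reesAlgebra I))) ha'
    (fun u hu v hv => ⟨⟨Polynomial.monomial 1 u, reesAlgebra.monomial_mem.2 (by simpa using hu)⟩ *
      ⟨Polynomial.monomial j v, reesAlgebra.monomial_mem.2 hv⟩,
      by simp [Polynomial.monomial_mul_monomial, add_comm],
      Ideal.mul_mem_right _ _ (Ideal.subset_span ⟨⟨u, hu⟩, rfl⟩)⟩)
    (fun u v ⟨y, hy, hy'⟩ ⟨z, hz, hz'⟩ => ⟨y + z, by simp [hy, hz], Ideal.add_mem _ hy' hz'⟩)
  rwa [show a = y from Subtype.ext (e.trans hy.symm)]

theorem bu3b_cover {R : Type} [CommRing R] {I : Ideal R} (x : Proj (reesGr I)) :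
    ∃ (f : R) (hf : f ∈ I), x ∈ Proj.basicOpen (reesGr I)
      (⟨Polynomial.monomial 1 f, reesAlgebra.monomial_mem.2 (by simpa using hf)⟩ :
        reesAlgebra I) := by
  have h1 := Proj.iSup_basicOpen_eq_top (reesGr I) _ (bu3b_irr I)
  have h2 : x ∈ (⊤ : (Proj (reesGr I)).Opens) := trivial
  rw [← h1, TopologicalSpace.Opens.mem_iSup] at h2
  obtain ⟨⟨f, hf⟩, hx⟩ := h2
  exact ⟨f, hf, hx⟩

theorem bu3b_mem {R : Type} [CommRing R] {I : Ideal R} {f : R} (hf : f ∈ I) :
    (⟨Polynomial.monomial 1 f, reesAlgebra.monomial_mem.2 (by simpa using hf)⟩ :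
        reesAlgebra I) ∈ reesGr I 1 :=
  (mem_reesGr I 1 _).2 ⟨f, by simpa using hf, rfl⟩

/-- PROOF.  `reesAlgebra I ⊆ R[X]` is a domain.  Let `0 ≠ f ∈ I`.  `η` = the zero ideal, a
homogeneous prime not containing `monomial 1 f` (so not containing the irrelevant ideal).  Every point
of `Proj` is in `D₊(s)` for a homogeneous `s` of positive degree outside the prime, `s ≠ 0`, and
`D₊(s) = Spec (Away s)` (`Proj.awayι`, `Proj.opensRange_awayι`) with `Away s` a domain (a subring of the
localization of a domain at a nonzero element: `HomogeneousLocalization.val_injective`).  Apply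
`isIntegral_of_cover`. -/
theorem isIntegral_blProj {R : Type} [CommRing R] [IsDomain R] {I : Ideal R} (hI : I ≠ ⊥) :
    IsIntegral (blProj I) := by
  obtain ⟨f, hf, hf0⟩ := Submodule.exists_mem_ne_zero_of_ne_bot hI
  have h0 : ∀ x : reesAlgebra I, x ∈ (⊥ : HomogeneousIdeal (reesGr I)) → x = 0 := fun x hx => by
    have h1 : x ∈ (⊥ : HomogeneousIdeal (reesGr I)).toIdeal := hx
    rwa [HomogeneousIdeal.toIdeal_bot, Ideal.mem_bot] at h1
  let η : ProjectiveSpectrum (reesGr I) :=
    { asHomogeneousIdeal := ⊥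
      isPrime := by
        rw [HomogeneousIdeal.toIdeal_bot]
        exact Ideal.isPrime_bot
      not_irrelevant_le := fun h => by
        have h1 := h0 _ (h (HomogeneousIdeal.mem_irrelevant_of_mem _ Nat.one_pos (bu3b_mem hf)))
        have h2 := congrArg (fun p : reesAlgebra I => (p : Polynomial R).coeff 1) h1
        simp only [Polynomial.coeff_monomial_same, ZeroMemClass.coe_zero,
          Polynomial.coeff_zero] at h2
        exact hf0 h2 }
  change IsIntegral (Proj (reesGr I))
  refine isIntegral_of_cover (X := Proj (reesGr I)) η fun x => ?_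
  obtain ⟨g, hg, hx⟩ := bu3b_cover x
  have hg0 : (⟨Polynomial.monomial 1 g, reesAlgebra.monomial_mem.2 (by simpa using hg)⟩ :
      reesAlgebra I) ≠ 0 := fun h => by
    rw [h] at hx
    exact (Proj.mem_basicOpen _ _ _).1 hx (zero_mem _)
  have := bu3b_away (reesGr I) hg0
  refine ⟨_, Proj.awayι (reesGr I) _ (bu3b_mem hg) Nat.one_pos, inferInstance, inferInstance,
    ?_, ?_⟩
  · change x ∈ (Proj.awayι (reesGr I) _ (bu3b_mem hg) Nat.one_pos).opensRange
    rw [Proj.opensRange_awayι]
    exact hx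
  · change (η : Proj (reesGr I)) ∈
      (Proj.awayι (reesGr I) _ (bu3b_mem hg) Nat.one_pos).opensRange
    rw [Proj.opensRange_awayι]
    exact fun h => hg0 (h0 _ h)
-- END BU3b

-- BEGIN BU3c
/-- PROOF.  Transport the witnesses (`f ↦ e f`), the maximal ideals correspond
(`IsLocalRing` and ring isomorphisms), `blowSub φ' (e f)` is the image of `blowSub φ f` under `e'`
(`Subring.closure_induction` or `RingHom.map_closure`). -/
theorem IsQT.congr {A A' B B' : Type} [CommRing A] [CommRing A'] [CommRing B] [CommRing B']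
    [IsLocalRing A] [IsLocalRing B] {φ : A →+* A'} {φ' : B →+* B'} (e : A ≃+* B) (e' : A' ≃+* B')
    (h : ∀ a, e' (φ a) = φ' (e a)) (hφ : IsQT φ) : IsQT φ' := by
  obtain ⟨f, hf, hf0, hdvd, hgen⟩ := hφ.ex
  have hm : ∀ g ∈ maximalIdeal B, e.symm g ∈ maximalIdeal A := fun g hg => by
    rw [mem_maximalIdeal, mem_nonunits_iff] at hg ⊢
    rwa [MulEquiv.isUnit_map e.symm]
  have hcl : ∀ x ∈ blowSub φ f, e' x ∈ blowSub φ' (e f) := by
    intro x hx
    have h1 : blowSub φ f ≤ (blowSub φ' (e f)).comap (e' : A' →+* B') := by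
      refine Subring.closure_le.2 ?_
      rintro x (⟨a, rfl⟩ | ⟨g, hg, hx⟩)
      · exact Subring.subset_closure (Or.inl ⟨e a, (h a).symm⟩)
      · refine Subring.subset_closure (Or.inr ⟨e g, ?_, ?_⟩)
        · rw [mem_maximalIdeal, mem_nonunits_iff] at hg ⊢
          rwa [MulEquiv.isUnit_map e]
        · change φ' (e f) * e' x = φ' (e g)
          rw [← h, ← h, ← map_mul, hx]
    exact h1 hx
  refine ⟨e f, ?_, ?_, fun g hg => ?_, fun z => ?_⟩
  · rw [mem_maximalIdeal, mem_nonunits_iff] at hf ⊢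
    rwa [MulEquiv.isUnit_map e]
  · rw [← h]
    exact (map_ne_zero_iff _ e'.injective).2 hf0
  · obtain ⟨c, hc⟩ := hdvd _ (hm g hg)
    refine ⟨e' c, ?_⟩
    rw [← h, ← map_mul, ← hc, h, RingEquiv.apply_symm_apply]
  · obtain ⟨p, hp, q, hq, hqu, hpq⟩ := hgen (e'.symm z)
    refine ⟨e' p, hcl p hp, e' q, hcl q hq, hqu.map e', ?_⟩
    rw [← hpq, map_mul, RingEquiv.apply_symm_apply]
-- END BU3c

-- BEGIN BU3d
/-- The affine form: local rings of `R[I / f]`.

PROOF.  Let `φ = Localization.localRingHom 𝔭 𝔮 ψ _`.  The element is `f' = f / 1 ∈ maximalIdeal`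
(`f ∈ I ⊆ 𝔭`), `φ f' = ψ f / 1 ≠ 0` (`C` is a domain).  An element `g'` of the maximal ideal is
`g / s`, `g ∈ 𝔭`, `s ∉ 𝔭`; by `hloc` `s' * g ∈ I`, `s' ∉ 𝔭`, so `ψ (s' g) = ψ f * c` and
`φ g' = φ f' * (c / ψ (s' s))`.  An element of `C_𝔮` is `c / d` with `d ∉ 𝔮`: `q = d / 1`, `p = c / 1`;
they are in `blowSub φ f'` because `C` is the closure: map the closure by `C → C_𝔮`
(`Subring.closure_induction`); `ψ r / 1 = φ (r / 1)`, and `ψ f * x = ψ g`, `g ∈ I ⊆ 𝔭`, gives
`φ f' * (x / 1) = φ (g / 1)`. -/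
theorem isQT_localRingHom {R C : Type} [CommRing R] [CommRing C] [IsDomain C] (ψ : R →+* C)
    {I : Ideal R} {f : R} (hf : f ∈ I) (hf0 : ψ f ≠ 0) (hdvd : ∀ g ∈ I, ψ f ∣ ψ g)
    (hgen : Subring.closure (Set.range ψ ∪ {x | ∃ g ∈ I, ψ f * x = ψ g}) = ⊤)
    (𝔭 : Ideal R) [𝔭.IsPrime] (𝔮 : Ideal C) [𝔮.IsPrime] (h : 𝔭 = 𝔮.comap ψ) (hI : I ≤ 𝔭)
    (hloc : ∀ g ∈ 𝔭, ∃ s ∉ 𝔭, s * g ∈ I) :
    IsQT (Localization.localRingHom 𝔭 𝔮 ψ h) := by
  have hval : ∀ r, Localization.localRingHom 𝔭 𝔮 ψ h (algebraMap R _ r) =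
      algebraMap C (Localization.AtPrime 𝔮) (ψ r) := fun r =>
    Localization.localRingHom_to_map 𝔭 𝔮 ψ h r
  have hinj : Function.Injective (algebraMap C (Localization.AtPrime 𝔮)) :=
    IsLocalization.injective _ 𝔮.primeCompl_le_nonZeroDivisors
  have hmem : ∀ r ∈ 𝔭, algebraMap R (Localization.AtPrime 𝔭) r ∈
      maximalIdeal (Localization.AtPrime 𝔭) := fun r hr =>
    (IsLocalization.AtPrime.to_map_mem_maximal_iff _ 𝔭 r).2 hr
  have hcl : ∀ c : C, algebraMap C (Localization.AtPrime 𝔮) c ∈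
      blowSub (Localization.localRingHom 𝔭 𝔮 ψ h) (algebraMap R _ f) := by
    intro c
    have h1 : (⊤ : Subring C) ≤ (blowSub (Localization.localRingHom 𝔭 𝔮 ψ h)
        (algebraMap R _ f)).comap (algebraMap C (Localization.AtPrime 𝔮)) := by
      rw [← hgen]
      refine Subring.closure_le.2 ?_
      rintro x (⟨a, rfl⟩ | ⟨g, hg, hx⟩)
      · exact Subring.subset_closure (Or.inl ⟨algebraMap R _ a, hval a⟩)
      · refine Subring.subset_closure (Or.inr ⟨algebraMap R _ g, hmem g (hI hg), ?_⟩)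
        rw [hval, hval, ← hx, map_mul]
    exact h1 trivial
  refine ⟨algebraMap R _ f, hmem f (hI hf), ?_, fun g' hg' => ?_, fun z => ?_⟩
  · rw [hval]
    exact (map_ne_zero_iff _ hinj).2 hf0
  · obtain ⟨⟨g, s⟩, hgs⟩ := IsLocalization.surj 𝔭.primeCompl g'
    have hg : g ∈ 𝔭 := by
      rw [← IsLocalization.AtPrime.to_map_mem_maximal_iff (Localization.AtPrime 𝔭) 𝔭, ← hgs]
      exact Ideal.mul_mem_right _ _ hg'
    obtain ⟨s', hs', hs'g⟩ := hloc g hg
    obtain ⟨c, hc⟩ := hdvd _ hs'g
    have hu : IsUnit (algebraMap C (Localization.AtPrime 𝔮) (ψ (s' * s))) := by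
      refine IsLocalization.map_units (M := 𝔮.primeCompl) _ ⟨_, fun h1 => ?_⟩
      exact (Ideal.IsPrime.mem_or_mem inferInstance ((SetLike.ext_iff.1 h _).2 h1)).elim hs' s.2
    obtain ⟨u, hu'⟩ := hu
    refine ⟨algebraMap C _ c * ↑u⁻¹, ?_⟩
    rw [← mul_assoc, Units.eq_mul_inv_iff_mul_eq, hu', hval, ← map_mul, ← hc, ← hval, ← hval,
      ← map_mul, map_mul (algebraMap R _), map_mul (algebraMap R _)]
    congr 1
    rw [← hgs]
    ring
  · obtain ⟨⟨c, d⟩, hcd⟩ := IsLocalization.surj 𝔮.primeCompl z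
    refine ⟨_, hcl c, _, hcl d, IsLocalization.map_units _ d, ?_⟩
    rw [← hcd, mul_comm]
-- END BU3d

-- BEGIN BU3e
/-- The chart rings of the blow-up.

PROOF.  `C = Away (reesGr I) (monomial 1 f)` is a domain with `HomogeneousLocalization.val` injective
to the localization of `reesAlgebra I` at the powers of `s = monomial 1 f`.  `ψ = baseToAway`, with
`val (ψ r) = C r / 1` (`val_baseToAway`).  For `g ∈ I` the element `x = monomial 1 g / s ∈ C`
satisfies `ψ f * x = ψ g` because `C f * monomial 1 g = C g * monomial 1 f`.  `ψ f ≠ 0`.  Generation: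
by `Away.mk_surjective` every element of `C` is `b / s ^ k` with `b = monomial k a`, `a ∈ I ^ k`
(`mem_reesGr`); `a ∈ I ^ k` is a sum of products of `k` elements of `I`
(`Submodule.pow_induction_on_left'`/induction on `k` with `Submodule.mul_induction_on`), and
`monomial k (g₁ ... g_k) / s ^ k = ∏ (monomial 1 g_i / s)`. -/
theorem away_gen {R : Type} [CommRing R] [IsDomain R] {I : Ideal R} {f : R} (hf : f ∈ I)
    (hf0 : f ≠ 0) :
    let s : reesAlgebra I := ⟨Polynomial.monomial 1 f, reesAlgebra.monomial_mem.2 (by simpa using hf)⟩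
    let ψ := baseToAway (reesGr I) s
    IsDomain (Away (reesGr I) s) ∧ ψ f ≠ 0 ∧ (∀ g ∈ I, ψ f ∣ ψ g) ∧
      Subring.closure (Set.range ψ ∪ {x | ∃ g ∈ I, ψ f * x = ψ g}) = ⊤ := by
  intro s ψ
  have hs : s ∈ reesGr I 1 := bu3b_mem hf
  have hs0 : s ≠ 0 := fun h => by
    have h2 := congrArg (fun p : reesAlgebra I => (p : Polynomial R).coeff 1) h
    simp only [s, Polynomial.coeff_monomial_same, ZeroMemClass.coe_zero,
      Polynomial.coeff_zero] at h2
    exact hf0 h2
  have hdom := bu3b_away (reesGr I) hs0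
  have hdL := IsLocalization.isDomain_localization
    (powers_le_nonZeroDivisors_of_noZeroDivisors hs0)
  have hinj : Function.Injective (algebraMap (reesAlgebra I) (Localization.Away s)) :=
    IsLocalization.injective _ (powers_le_nonZeroDivisors_of_noZeroDivisors hs0)
  have hval : ∀ r, (ψ r).val = algebraMap _ (Localization.Away s) (algebraMap R _ r) :=
    fun r => val_baseToAway (reesGr I) s r
  have hmk : ∀ (n : ℕ) (a : reesAlgebra I) (ha : a ∈ reesGr I (n • 1)),
      (Away.mk (reesGr I) hs n a ha).val * algebraMap _ (Localization.Away s) (s ^ n) =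
        algebraMap _ _ a := fun n a ha => by
    rw [Away.val_mk, Localization.mk_eq_mk']
    exact IsLocalization.mk'_spec _ _ _
  have hx : ∀ g ∈ I, ∃ x : Away (reesGr I) s, ψ f * x = ψ g ∧ ∀ y : reesAlgebra I,
      (y : Polynomial R) = Polynomial.monomial 1 g → x.val * algebraMap _ _ s =
        algebraMap _ (Localization.Away s) y := by
    intro g hg
    refine ⟨Away.mk (reesGr I) hs 1 _ (bu3b_mem hg), ?_, fun y hy => ?_⟩
    · apply val_injective
      apply mul_right_cancel₀ ((map_ne_zero_iff _ hinj).2 (pow_ne_zero 1 hs0))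
      rw [val_mul, mul_assoc, hmk, hval, hval, ← map_mul, ← map_mul]
      congr 1
      apply Subtype.ext
      simp [s, Polynomial.algebraMap_eq, Polynomial.C_mul_monomial, mul_comm]
    · have h1 := hmk 1 _ (bu3b_mem hg)
      rw [pow_one s] at h1
      rw [h1]
      exact congrArg _ (Subtype.ext hy.symm)
  refine ⟨hdom, fun h => ?_, fun g hg => ?_, ?_⟩
  · have h1 := congrArg val h
    rw [hval, val_zero, map_eq_zero_iff _ hinj] at h1
    have h2 := congrArg (fun p : reesAlgebra I => (p : Polynomial R).coeff 0) h1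
    simp only [Subalgebra.coe_algebraMap, Polynomial.algebraMap_eq, Polynomial.coeff_C_zero,
      ZeroMemClass.coe_zero, Polynomial.coeff_zero] at h2
    exact hf0 h2
  · obtain ⟨x, hx, -⟩ := hx g hg
    exact ⟨x, hx.symm⟩
  · set Q := Subring.closure (Set.range ψ ∪ {x | ∃ g ∈ I, ψ f * x = ψ g}) with hQ
    have key : ∀ n : ℕ, ∀ u ∈ I ^ n, ∃ y : reesAlgebra I,
        (y : Polynomial R) = Polynomial.monomial n u ∧ ∃ z ∈ Q,
          z.val * algebraMap _ _ (s ^ n) = algebraMap _ (Localization.Away s) y := by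
      intro n
      induction n with
      | zero =>
        intro u _
        refine ⟨algebraMap R _ u, by simp, ψ u,
          Subring.subset_closure (Or.inl ⟨u, rfl⟩), ?_⟩
        rw [hval, pow_zero, map_one, mul_one]
      | succ n ih =>
        intro u hu
        rw [pow_succ] at hu
        refine Submodule.mul_induction_on hu (fun a ha b hb => ?_) ?_
        · obtain ⟨y, hy, z, hz, e⟩ := ih a ha
          obtain ⟨x, hx1, hx2⟩ := hx b hb
          refine ⟨y * ⟨Polynomial.monomial 1 b, reesAlgebra.monomial_mem.2 (by simpa using hb)⟩,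
            by simp [hy, Polynomial.monomial_mul_monomial], z * x,
            Q.mul_mem hz (Subring.subset_closure (Or.inr ⟨b, hb, hx1⟩)), ?_⟩
          rw [map_mul, ← e, ← hx2 ⟨Polynomial.monomial 1 b,
            reesAlgebra.monomial_mem.2 (by simpa using hb)⟩ rfl, val_mul, pow_succ, map_mul]
          ring
        · rintro a b ⟨y, hy, z, hz, e⟩ ⟨y', hy', z', hz', e'⟩
          exact ⟨y + y', by simp [hy, hy'], z + z', Q.add_mem hz hz', by
            rw [val_add, add_mul, e, e', map_add]⟩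
    rw [eq_top_iff]
    rintro z -
    obtain ⟨n, a, ha, rfl⟩ := Away.mk_surjective (reesGr I) hs z
    obtain ⟨a', ha', ea⟩ := (mem_reesGr I _ a).1 ha
    rw [smul_eq_mul, mul_one] at ha' ea
    obtain ⟨y, hy, z, hz, e⟩ := key n a' ha'
    convert hz
    apply val_injective
    apply mul_right_cancel₀ ((map_ne_zero_iff _ hinj).2 (pow_ne_zero n hs0))
    rw [e, hmk, show a = y from Subtype.ext (ea.trans hy.symm)]
-- END BU3e

-- BEGIN BU3f
theorem bu3f_step {X Y Z : Scheme.{0}} (j : X ⟶ Y) [IsOpenImmersion j] (g : Y ⟶ Z) (x : X)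
    (h : IsQT ((j ≫ g).stalkMap x).hom) : IsQT (g.stalkMap (j x)).hom := by
  have h1 : IsQT (g.stalkMap (j x) ≫ j.stalkMap x).hom := by
    rw [← Scheme.Hom.stalkMap_comp]
    exact h
  refine IsQT.congr (RingEquiv.refl _) (asIso (j.stalkMap x)).symm.commRingCatIsoToRingEquiv
    (fun a => ?_) h1
  change (inv (j.stalkMap x)).hom ((g.stalkMap (j x) ≫ j.stalkMap x).hom a) = _
  rw [← CommRingCat.comp_apply, Category.assoc, IsIso.hom_inv_id, Category.comp_id]
  rfl

theorem bu3f_eq {X Y : Scheme.{0}} {f g : X ⟶ Y} (h : f = g) (x : X)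
    (hg : IsQT (g.stalkMap x).hom) : IsQT (f.stalkMap x).hom := by
  subst h
  exact hg

theorem bu3f_spec {R C : Type} [CommRing R] [CommRing C] (ψ : R →+* C) (p : PrimeSpectrum C)
    (h : IsQT (Localization.localRingHom (PrimeSpectrum.comap ψ p).asIdeal p.asIdeal ψ rfl)) :
    IsQT ((Spec.map (CommRingCat.ofHom ψ)).stalkMap p).hom := by
  refine IsQT.congr
    (Spec.stalkIso (.of R) (PrimeSpectrum.comap ψ p)).symm.commRingCatIsoToRingEquiv
    (Spec.stalkIso (.of C) p).symm.commRingCatIsoToRingEquiv (fun a => ?_) h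
  have h1 := Scheme.localRingHom_comp_stalkIso (CommRingCat.ofHom ψ) p
  rw [← Iso.eq_inv_comp] at h1
  exact congrArg (fun f => f.hom a) h1

/-- The local rings of the blow-up over a point of the centre.

PROOF.  The point `y'` is a homogeneous prime `𝔓` of the Rees algebra not containing the irrelevant
ideal.  There is `f ∈ I` with `s = monomial 1 f ∉ 𝔓`: otherwise all `monomial i a`, `a ∈ I ^ i`,
`i ≥ 1` are in `𝔓` (they are sums of products of a `monomial 1 g`, `g ∈ I`), so the irrelevant ideal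
is.  `f ≠ 0`.  So `y'` is the image of a point `y''` under the open immersion `j = Proj.awayι _ s`
(`Proj.opensRange_awayι`), and `j ≫ blTo I = Spec.map (ofHom ψ)`, `ψ = baseToAway` (`awayι_projTo`).
So `(blTo I).stalkMap (j y'')` followed by the isomorphism `j.stalkMap y''` is
`(Spec.map ψ).stalkMap y''` (`Scheme.Hom.stalkMap_comp`, `Scheme.Hom.stalkMap_congr_hom`), which is
identified with `Localization.localRingHom` by `Spec.stalkIso`/`Scheme.localRingHom_comp_stalkIso`
(Mathlib: `AlgebraicGeometry.localRingHom_comp_stalkIso`, or `Scheme.arrowStalkMapSpecIso`).  Apply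
`isQT_localRingHom` with `away_gen` and `IsQT.congr`. -/
theorem isQT_blTo {R : Type} [CommRing R] [IsDomain R] {I : Ideal R} (y' : blProj I)
    (hI : I ≤ PrimeSpectrum.asIdeal (blTo I y'))
    (hloc : ∀ g ∈ PrimeSpectrum.asIdeal (blTo I y'),
      ∃ s ∉ PrimeSpectrum.asIdeal (blTo I y'), s * g ∈ I) :
    IsQT ((blTo I).stalkMap y').hom := by
  obtain ⟨f, hf, hx⟩ := bu3b_cover y'
  have hf0 : f ≠ 0 := by
    rintro rfl
    refine (Proj.mem_basicOpen _ _ _).1 hx ?_
    convert zero_mem y'.asHomogeneousIdeal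
    simp
  obtain ⟨h0, h1, h2, h3⟩ := away_gen hf hf0
  rw [← Proj.opensRange_awayι (reesGr I) _ (bu3b_mem hf) Nat.one_pos] at hx
  obtain ⟨y, rfl⟩ := hx
  have hcomp : Proj.awayι (reesGr I) _ (bu3b_mem hf) Nat.one_pos ≫ blTo I = _ :=
    awayι_projTo (reesGr I) _ (bu3b_mem hf) Nat.one_pos
  have hpt : blTo I (Proj.awayι (reesGr I) _ (bu3b_mem hf) Nat.one_pos y) =
      PrimeSpectrum.comap (baseToAway (reesGr I) _) y := by
    change (Proj.awayι (reesGr I) _ (bu3b_mem hf) Nat.one_pos ≫ blTo I) y = _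
    rw [hcomp]
    rfl
  refine bu3f_step (Proj.awayι (reesGr I) _ (bu3b_mem hf) Nat.one_pos) (blTo I) y
    (bu3f_eq hcomp y (bu3f_spec _ y ?_))
  rw [hpt] at hI hloc
  exact isQT_localRingHom _ hf h1 h2 h3 _ _ rfl hI hloc
-- END BU3f

end Pool.Agent.Lib.MP_6a3dac_ag.NU
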