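import Pool.Agent.Lib.MP_6a3dac_ag.Mg.G055

/-!
# NU: examples of locally discrete valuation rings
-/

set_option autoImplicit false

namespace Pool.Agent.Lib.MP_6a3dac_ag.NU

open IsLocalRing

theorem isLocalHom_cutRing_subtype {R K : Type} [CommRing R] [Field K] [Algebra R K]
    (L : Subfield K) : IsLocalHom (cutRing R L).subtype := by
  refine ⟨fun a ha => ?_⟩
  obtain ⟨b, hb⟩ := ha.exists_right_inv
  refine IsUnit.of_mul_eq_one ⟨b, ?_⟩ (Subtype.ext hb)
  have h1 : algebraMap R K a * algebraMap R K b = 1 := by
    rw [← map_mul, ← map_one (algebraMap R K)]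
    exact congrArg _ hb
  rw [Subring.mem_comap, eq_inv_of_mul_eq_one_right h1]
  exact L.inv_mem a.2

/-- A ring with a local homomorphism to a discrete valuation ring of characteristic zero is locally
discrete. -/
theorem HasDiscretePoint.locallyDiscrete {R : Type} (K : Type) [CommRing R] [Field K] [Algebra R K]
    (h : HasDiscretePoint R) : LocallyDiscrete R K := by
  obtain ⟨V, _, _, _, φ, h1, h2⟩ := h
  intro s
  have := isLocalHom_cutRing_subtype (R := R) (Subfield.closure (s : Set K))
  exact ⟨V, _, _, inferInstance, φ.comp (cutRing R (Subfield.closure (s : Set K))).subtype, h1,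
    RingHom.isLocalHom_comp _ _⟩

/-- Discrete valuation rings of characteristic zero. -/
theorem hasDiscretePoint_of_dvr (V : Type) [CommRing V] [IsDomain V] [IsDiscreteValuationRing V]
    [CharZero V] : HasDiscretePoint V :=
  ⟨V, _, _, inferInstance, RingHom.id V, inferInstance, inferInstance⟩

/-- Local rings with residue fields of characteristic zero. -/
theorem hasDiscretePoint_of_residueField (R : Type) [CommRing R] [IsLocalRing R]
    [CharZero (ResidueField R)] : HasDiscretePoint R := by
  refine ⟨PowerSeries (ResidueField R), _, inferInstance, inferInstance,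
    (PowerSeries.C (R := ResidueField R)).comp (residue R), ?_, ⟨fun a ha => ?_⟩⟩
  · exact charZero_of_injective_algebraMap (R := ResidueField R) PowerSeries.C_injective
  · have h1 := ha.map (PowerSeries.constantCoeff (R := ResidueField R))
    rw [RingHom.comp_apply, PowerSeries.constantCoeff_C] at h1
    exact isUnit_of_map_unit (residue R) a h1

/-- Local rings `R` with a prime ideal `𝔭` such that `R ⧸ 𝔭` is a discrete valuation ring of
characteristic zero. -/
theorem hasDiscretePoint_of_quotient (R : Type) [CommRing R] [IsLocalRing R] (𝔭 : Ideal R)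
    [𝔭.IsPrime] [IsDiscreteValuationRing (R ⧸ 𝔭)] [CharZero (R ⧸ 𝔭)] : HasDiscretePoint R :=
  ⟨R ⧸ 𝔭, _, inferInstance, inferInstance, Ideal.Quotient.mk 𝔭, inferInstance,
    IsLocalHom.of_surjective _ Ideal.Quotient.mk_surjective⟩

end Pool.Agent.Lib.MP_6a3dac_ag.NU
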