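import Pool.Agent.Lib.MP_6a3dac_ag.Mg.G055
import Pool.Agent.Lib.MP_6a3dac_ag.Mg.G054

/-!
# NU: the main theorem for projective schemes
-/

set_option autoImplicit false

namespace Pool.Agent.Lib.MP_6a3dac_ag.NU

open CategoryTheory Limits AlgebraicGeometry TopologicalSpace IsLocalRing NumberField

/-- The main theorem for closed subschemes of the generic fibre of a proper scheme. -/
theorem exists_isDiscreteModel_of_closed {E : Type} [Field E] [NumberField E] {X P : Scheme.{0}}
    [IsIntegral X] (p : P ⟶ Spec (CommRingCat.of (𝓞 E))) (hp : IsProper p)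
    (i : X ⟶ pullback p (genPt E)) (hi : IsClosedImmersion i)
    (hf : Smooth (i ≫ pullback.snd p (genPt E))) :
    ∃ (𝒰 : Scheme.{0}) (g' : 𝒰 ⟶ Spec (CommRingCat.of (𝓞 E))),
      IsDiscreteModel E (i ≫ pullback.snd p (genPt E)) g' := by
  obtain ⟨h1, -, h2, -⟩ := image_props p hp i hi
  exact exists_isDiscreteModel _ hf _ h2 (hasGenericFibre_image p hp i hi)

/-- **The main theorem.** -/
theorem exists_isDiscreteModel_of_hasClosure {E : Type} [Field E] [NumberField E] {X : Scheme.{0}}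
    [IsIntegral X] (f : X ⟶ Spec (CommRingCat.of E)) (hf : Smooth f) (h : HasClosure E f) :
    ∃ (𝒰 : Scheme.{0}) (g' : 𝒰 ⟶ Spec (CommRingCat.of (𝓞 E))), IsDiscreteModel E f g' := by
  rcases h with ⟨n, i, hi, rfl⟩ | ⟨P, p, i, hp, hi, rfl⟩
  · obtain ⟨e, he⟩ := exists_iso_PN (E := E) n
    have h1 : (i ≫ e.inv) ≫ pullback.snd (PNTo (𝓞 E) n) (genPt E) = i ≫ PNTo E n := by
      rw [← he, Category.assoc, Iso.inv_hom_id_assoc]
    rw [← h1] at hf ⊢
    exact exists_isDiscreteModel_of_closed _ (isProper_PNTo _ _) _ inferInstance hf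
  · exact exists_isDiscreteModel_of_closed p hp i hi hf

end Pool.Agent.Lib.MP_6a3dac_ag.NU
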