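import Pool.Agent.Lib.MP_6a3dac_ag.Mg.G055

/-!
# NU: the quasi-compact case is the existence of regular proper flat models
-/

set_option autoImplicit false

namespace Pool.Agent.Lib.MP_6a3dac_ag.NU

open CategoryTheory Limits AlgebraicGeometry TopologicalSpace IsLocalRing NumberField

/-- Proper schemes have the lifting property for valuation rings. -/
theorem hasLift_of_isProper {𝒴 : Scheme.{0}} {O : Type} [CommRing O]
    (g : 𝒴 ⟶ Spec (CommRingCat.of O)) (hg : IsProper g) (R : Type) [CommRing R] [IsDomain R]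
    [ValuationRing R] : HasLift g R := by
  intro K _ _ _ s x hx
  have hp := hg
  rw [IsProper.eq_valuativeCriterion] at hp
  obtain ⟨⟨l, h1, h2⟩⟩ := (hp.1.1.1.existence ⟨R, K, x, s, ⟨hx⟩⟩).exists_lift
  exact ⟨l, h1, h2⟩

/-- A scheme which is proper over the ring of integers is quasi-compact. -/
theorem compactSpace_of_isProper {E : Type} [Field E] [NumberField E] {𝒴 : Scheme.{0}}
    (g : 𝒴 ⟶ Spec (CommRingCat.of (𝓞 E))) (hg : IsProper g) : CompactSpace 𝒴 :=
  QuasiCompact.compactSpace_of_compactSpace g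

/-- A regular proper flat model satisfies all the conditions. -/
theorem IsValuativeModel.of_proper {E : Type} [Field E] [NumberField E] {X 𝒴 : Scheme.{0}}
    (f : X ⟶ Spec (CommRingCat.of E)) (g : 𝒴 ⟶ Spec (CommRingCat.of (𝓞 E)))
    (hreg : ∀ y : 𝒴, IsRegularLocalRing (𝒴.presheaf.stalk y)) (hg : IsProper g) (hfl : Flat g)
    (hgen : HasGenericFibre E f g) : IsValuativeModel E f g := by
  have hsep : IsSeparated g := inferInstance
  have hlft : LocallyOfFiniteType g := inferInstance
  have hft : ∀ U : 𝒴.affineOpens, Algebra.FiniteType ℤ Γ(𝒴, U) := finiteType_of_model _ hlft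
  have hc := compactSpace_of_isProper g hg
  have hr : Set.range ((⊤ : 𝒴.Opens).ι) = Set.univ := by
    rw [Scheme.Opens.range_ι]
    rfl
  refine ⟨hreg, hsep, hfl, hlft, hgen,
    fun S _ => valuative_of_hasLift g hsep S (hasLift_of_isProper g hg S.R),
    fun S _ => valuative_of_hasLift g hsep S (hasLift_of_isProper g hg S.R), ?_,
    ⟨fun _ => ⊤, monotone_const, fun _ => ⟨0, trivial⟩, fun d => ⟨?_, fun _ _ => trivial, 𝒴, g,
      (⊤ : 𝒴.Opens).ι, hg, hfl, hgen, inferInstance, rfl, ?_, ?_⟩⟩, fun _ => hg⟩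
  · intro D₀ D K _ _ _ _ _ _ _ _ _ _ _ s x hx
    exact exists_integral_pointsA (D₀ := D₀) g hsep hlft hft
      (fun V _ _ _ => hasLift_of_isProper g hg V) s x hx
  · exact isCompact_univ
  · intro V _ _ _ _ _
    exact ⟨fun _ _ _ => trivial, fun _ _ _ => hr ▸ trivial⟩
  · intro L _ _ _
    exact ⟨fun _ _ _ => trivial, fun _ _ _ => hr ▸ trivial⟩

/-- `X` has a regular proper flat model if and only if one of the schemes with the valuative
criterion for discrete valuation rings is quasi-compact. -/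
theorem exists_compact_iff {E : Type} [Field E] [NumberField E] {X : Scheme.{0}}
    (f : X ⟶ Spec (CommRingCat.of E)) :
    (∃ (𝒰 : Scheme.{0}) (g : 𝒰 ⟶ Spec (CommRingCat.of (𝓞 E))),
      IsValuativeModel E f g ∧ CompactSpace 𝒰) ↔ HasRegularModel E f := by
  constructor
  · rintro ⟨𝒰, g, h, hc⟩
    exact ⟨𝒰, g, h.reg, h.proper hc, h.flat, h.gen⟩
  · rintro ⟨𝒴, g, hreg, hg, hfl, hgen⟩
    exact ⟨𝒴, g, .of_proper f g hreg hg hfl hgen, compactSpace_of_isProper g hg⟩

end Pool.Agent.Lib.MP_6a3dac_ag.NU
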